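import Mathlib
import Pool.Agent.Helper40.CX.H15VN.Sw
import Pool.Agent.Helper40.CX.Good2

namespace CX

/-!
# The algebra of chains: moves, quadratic form, degrees, the relation for `N`
-/

set_option linter.unusedSectionVars false

namespace Pool.Agent.Helper15.VN

open Polynomial Pool.Agent.Helper83.VN

variable {ι F : Type*} [Field F] [Good F]

lemma s_add_t (e : Ed ι F) : e.s + e.t = e.b := by
  unfold Ed.s Ed.t; field_simp; ring

lemma s_sub_t (e : Ed ι F) : e.s - e.t = e.κ := by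
  unfold Ed.s Ed.t; field_simp; ring

section mp

variable {L : Type*} [Field L] [Good L] (ψ : F →+* L)

/-- The image of an edge. -/
def mpE (e : Ed ι F) : Ed ι L := ⟨e.i, ψ e.b, ψ e.κ, ψ e.z⟩

/-- The image of a four-vector. -/
noncomputable def mpV (V : V4 F) : V4 L := ⟨V.U.map ψ, V.U'.map ψ, V.Q.map ψ, V.R.map ψ⟩

lemma mpE_s (e : Ed ι F) : (mpE ψ e).s = ψ e.s := by
  unfold Ed.s mpE
  simp only [map_div₀, map_add, map_ofNat]

lemma mpE_t (e : Ed ι F) : (mpE ψ e).t = ψ e.t := by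
  unfold Ed.t mpE
  simp only [map_div₀, map_sub, map_ofNat]

lemma mpV_act (e : Ed ι F) (V : V4 F) : mpV ψ (act e V) = act (mpE ψ e) (mpV ψ V) := by
  unfold act mpV
  rw [mpE_s, mpE_t]
  unfold mpE
  have h4 : Polynomial.map ψ (4 : F[X]) = 4 := by
    have := Polynomial.map_ofNat (R := F) (f := ψ) 4
    simpa using this
  simp only [Polynomial.map_mul, Polynomial.map_add, Polynomial.map_sub, Polynomial.map_C, Polynomial.map_X,
    map_div₀, map_add, map_pow, map_mul, map_inv₀, map_ofNat, h4]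

lemma mpV_inj {V V' : V4 F} (h : mpV ψ V = mpV ψ V') : V = V' := by
  have hi := Polynomial.map_injective ψ ψ.injective
  apply V4.ext
  · exact hi (congrArg V4.U h)
  · exact hi (congrArg V4.U' h)
  · exact hi (congrArg V4.Q h)
  · exact hi (congrArg V4.R h)

lemma mpV_form (V : V4 F) : (mpV ψ V).form = V.form.map ψ := by
  have h4 : Polynomial.map ψ (4 : F[X]) = 4 := by
    have := Polynomial.map_ofNat (R := F) (f := ψ) 4
    simpa using this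
  unfold V4.form mpV
  simp only [Polynomial.map_mul, Polynomial.map_sub, Polynomial.map_pow, Polynomial.map_X, h4]

lemma mpE_fine {e : Ed ι F} (h : e.Fine) : (mpE ψ e).Fine := by
  obtain ⟨h1, h2, h3, h4, h5, h6, h7⟩ := h
  refine ⟨?_, ?_, ?_, ?_, ?_, ?_, ?_⟩
  · exact (map_ne_zero ψ).mpr h1
  · exact (map_ne_zero ψ).mpr h2
  · rw [mpE_s]; exact (map_ne_zero ψ).mpr h3
  · rw [mpE_t]; exact (map_ne_zero ψ).mpr h4
  · exact (map_ne_zero ψ).mpr h5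
  · rw [mpE_s]
    change ψ e.z + ψ e.s ≠ 0
    rw [← map_add]; exact (map_ne_zero ψ).mpr h6
  · rw [mpE_t]
    change ψ e.z + ψ e.t ≠ 0
    rw [← map_add]; exact (map_ne_zero ψ).mpr h7

lemma mp_dA (e₂ e₁ : Ed ι F) : dA (mpE ψ e₂) (mpE ψ e₁) = ψ (dA e₂ e₁) := by
  unfold dA
  rw [mpE_s, mpE_t, mpE_t]
  unfold mpE
  simp only [map_add, map_mul]

lemma mp_nA (e₂ e₁ : Ed ι F) : nA (mpE ψ e₂) (mpE ψ e₁) = ψ (nA e₂ e₁) := by
  unfold nA
  rw [mpE_s, mpE_s, mpE_t]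
  unfold mpE
  simp only [map_add, map_mul]

lemma mp_dB (e₂ e₁ : Ed ι F) : dB (mpE ψ e₂) (mpE ψ e₁) = ψ (dB e₂ e₁) := by
  unfold dB
  rw [mpE_s, mpE_t, mpE_t]
  unfold mpE
  simp only [map_add, map_mul]

lemma mp_nB (e₂ e₁ : Ed ι F) : nB (mpE ψ e₂) (mpE ψ e₁) = ψ (nB e₂ e₁) := by
  unfold nB
  rw [mpE_s, mpE_s, mpE_t]
  unfold mpE
  simp only [map_add, map_mul]

lemma mp_swz₁ (e₂ e₁ : Ed ι F) : swz₁ (mpE ψ e₂) (mpE ψ e₁) = ψ (swz₁ e₂ e₁) := by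
  unfold swz₁
  rw [mp_nA, mp_dA, mpE_t]
  unfold mpE
  simp only [map_div₀, map_mul]

lemma mp_swz₂ (e₂ e₁ : Ed ι F) : swz₂ (mpE ψ e₂) (mpE ψ e₁) = ψ (swz₂ e₂ e₁) := by
  unfold swz₂
  rw [mp_nB, mp_dB, mpE_t]
  unfold mpE
  simp only [map_div₀, map_mul]

lemma mp_nb {e₂ e₁ : Ed ι F} (h : Nb e₂ e₁) : Nb (mpE ψ e₂) (mpE ψ e₁) := by
  obtain ⟨h1, h2, h3, h4⟩ := h
  refine ⟨?_, ?_, ?_, ?_⟩
  · rw [mp_dA]; exact (map_ne_zero ψ).mpr h1
  · rw [mp_nA]; exact (map_ne_zero ψ).mpr h2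
  · rw [mp_dB]; exact (map_ne_zero ψ).mpr h3
  · rw [mp_nB]; exact (map_ne_zero ψ).mpr h4

end mp

section eval

variable (e : Ed ι F) (V : V4 F) (w : F)

lemma act_U_eval : (act e V).U.eval w = (e.z + e.s) / (e.z + e.t) * (e.z * V.U.eval w +
    e.t ^ 2 / e.z * V.U'.eval w + e.t * (V.Q.eval w + (w - 4) * V.R.eval w)) := by
  simp [act]

lemma act_U'_eval : (act e V).U'.eval w = (e.z + e.t) / (e.z + e.s) * (e.z * V.U.eval w +
    e.s ^ 2 / e.z * V.U'.eval w + e.s * (V.Q.eval w - (w - 4) * V.R.eval w)) := by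
  simp [act]

lemma act_Q_eval : (act e V).Q.eval w = e.b * V.Q.eval w + 2⁻¹ * w * (e.z * V.U.eval w +
    e.s * e.t / e.z * V.U'.eval w) := by
  simp [act]

lemma act_R_eval : (act e V).R.eval w = e.κ * V.R.eval w + 2⁻¹ * (e.z * V.U.eval w -
    e.s * e.t / e.z * V.U'.eval w) := by
  simp [act]

end eval

/-- Two four-vectors with the same values are equal. -/
lemma v4_ext [Infinite F] {V V' : V4 F} (h1 : ∀ w, V.U.eval w = V'.U.eval w) (h2 : ∀ w, V.U'.eval w = V'.U'.eval w)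
    (h3 : ∀ w, V.Q.eval w = V'.Q.eval w) (h4 : ∀ w, V.R.eval w = V'.R.eval w) : V = V' := by
  apply V4.ext
  · exact Polynomial.funext h1
  · exact Polynomial.funext h2
  · exact Polynomial.funext h3
  · exact Polynomial.funext h4

/-- The relations satisfied by the new coordinates. -/
lemma sw_rel {e₂ e₁ : Ed ι F} (h : Nb e₂ e₁) :
    swz₁ e₂ e₁ + e₁.s = (e₂.z + e₂.s) * dB e₂ e₁ / dA e₂ e₁ ∧
    swz₁ e₂ e₁ + e₁.t = e₁.t * (e₂.z + e₂.t) * nB e₂ e₁ / dA e₂ e₁ ∧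
    swz₂ e₂ e₁ + e₂.s = (e₁.z + e₁.s) * dA e₂ e₁ / dB e₂ e₁ ∧
    swz₂ e₂ e₁ + e₂.t = e₂.t * (e₁.z + e₁.t) * nA e₂ e₁ / dB e₂ e₁ := by
  obtain ⟨h1, h2, h3, h4⟩ := h
  unfold swz₁ swz₂
  refine ⟨?_, ?_, ?_, ?_⟩
  · rw [div_add' _ _ _ h1]; congr 1; unfold nA dA dB; ring
  · rw [div_add' _ _ _ h1]; congr 1; unfold nA dA nB; ring
  · rw [div_add' _ _ _ h3]; congr 1; unfold nB dA dB; ring
  · rw [div_add' _ _ _ h3]; congr 1; unfold nB nA dB; ring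

private lemma act_swap' [Infinite F] {e₂ e₁ : Ed ι F} (f₂ : e₂.Fine) (f₁ : e₁.Fine) (h : Nb e₂ e₁) (V : V4 F) :
    act ⟨e₁.i, e₁.b, e₁.κ, swz₁ e₂ e₁⟩ (act ⟨e₂.i, e₂.b, e₂.κ, swz₂ e₂ e₁⟩ V) =
      act e₂ (act e₁ V) := by
  obtain ⟨g1, g2, g3, g4⟩ := sw_rel h
  obtain ⟨-, -, hs2, ht2, hz2, hzs2, hzt2⟩ := f₂
  obtain ⟨-, -, hs1, ht1, hz1, hzs1, hzt1⟩ := f₁
  obtain ⟨hd, hn, hq, hr⟩ := h
  have es1 : (⟨e₁.i, e₁.b, e₁.κ, swz₁ e₂ e₁⟩ : Ed ι F).s = e₁.s := rfl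
  have et1 : (⟨e₁.i, e₁.b, e₁.κ, swz₁ e₂ e₁⟩ : Ed ι F).t = e₁.t := rfl
  have es2 : (⟨e₂.i, e₂.b, e₂.κ, swz₂ e₂ e₁⟩ : Ed ι F).s = e₂.s := rfl
  have et2 : (⟨e₂.i, e₂.b, e₂.κ, swz₂ e₂ e₁⟩ : Ed ι F).t = e₂.t := rfl
  have b1 := s_add_t e₁
  have b2 := s_add_t e₂
  have k1 := s_sub_t e₁
  have k2 := s_sub_t e₂
  have f1 : swz₁ e₂ e₁ = e₁.t * e₂.z * nA e₂ e₁ / dA e₂ e₁ := rfl
  have f2 : swz₂ e₂ e₁ = e₂.t * e₁.z * nB e₂ e₁ / dB e₂ e₁ := rfl
  have hd' : dA e₂ e₁ = e₂.t * e₁.z * e₂.z + e₂.s * e₂.t * e₁.z + e₂.s * e₁.t * e₂.z +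
    e₂.s * e₁.t * e₂.t := rfl
  have hn' : nA e₂ e₁ = e₁.z * e₂.z + e₂.s * e₁.z + e₁.s * e₂.z + e₁.s * e₂.t := rfl
  have hq' : dB e₂ e₁ = e₁.t * e₁.z * e₂.z + e₁.s * e₁.t * e₂.z + e₁.s * e₂.t * e₁.z +
    e₁.s * e₁.t * e₂.t := rfl
  have hr' : nB e₂ e₁ = e₁.z * e₂.z + e₁.s * e₂.z + e₂.s * e₁.z + e₂.s * e₁.t := rfl
  apply v4_ext
  · intro w
    have c0 := sw00 (w := w) hd' hn' hq' hr' hd hn hq hr hz1 hz2 hzs1 hzt1 hzs2 hzt2 ht1 ht2 f1 f2 g1 g2 g3 g4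
    have c1 := sw01 (w := w) hd' hn' hq' hr' hd hn hq hr hz1 hz2 hzs1 hzt1 hzs2 hzt2 ht1 ht2 f1 f2 g1 g2 g3 g4
    have c2 := sw02 (w := w) hd' hn' hq' hr' hd hn hq hr hz1 hz2 hzs1 hzt1 hzs2 hzt2 ht1 ht2 f1 f2 g1 g2 g3 g4
    have c3 := sw03 (w := w) hd' hn' hq' hr' hd hn hq hr hz1 hz2 hzs1 hzt1 hzs2 hzt2 ht1 ht2 f1 f2 g1 g2 g3 g4
    simp only [act_U_eval, act_U'_eval, act_Q_eval, act_R_eval, es1, et1, es2, et2]
    rw [← b1, ← b2, ← k1, ← k2]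
    linear_combination -(V.U.eval w) * c0 - (V.U'.eval w) * c1 - (V.Q.eval w) * c2 -
      (V.R.eval w) * c3
  · intro w
    have c0 := sw10 (w := w) hd' hn' hq' hr' hd hn hq hr hz1 hz2 hzs1 hzt1 hzs2 hzt2 ht1 ht2 f1 f2 g1 g2 g3 g4
    have c1 := sw11 (w := w) hd' hn' hq' hr' hd hn hq hr hz1 hz2 hzs1 hzt1 hzs2 hzt2 ht1 ht2 f1 f2 g1 g2 g3 g4
    have c2 := sw12 (w := w) hd' hn' hq' hr' hd hn hq hr hz1 hz2 hzs1 hzt1 hzs2 hzt2 ht1 ht2 f1 f2 g1 g2 g3 g4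
    have c3 := sw13 (w := w) hd' hn' hq' hr' hd hn hq hr hz1 hz2 hzs1 hzt1 hzs2 hzt2 ht1 ht2 f1 f2 g1 g2 g3 g4
    simp only [act_U_eval, act_U'_eval, act_Q_eval, act_R_eval, es1, et1, es2, et2]
    rw [← b1, ← b2, ← k1, ← k2]
    linear_combination -(V.U.eval w) * c0 - (V.U'.eval w) * c1 - (V.Q.eval w) * c2 -
      (V.R.eval w) * c3
  · intro w
    have c0 := sw20 (w := w) hd' hn' hq' hr' hd hn hq hr hz1 hz2 hzs1 hzt1 hzs2 hzt2 ht1 ht2 f1 f2 g1 g2 g3 g4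
    have c1 := sw21 (w := w) hd' hn' hq' hr' hd hn hq hr hz1 hz2 hzs1 hzt1 hzs2 hzt2 ht1 ht2 f1 f2 g1 g2 g3 g4
    have c2 := sw22 (w := w) hd' hn' hq' hr' hd hn hq hr hz1 hz2 hzs1 hzt1 hzs2 hzt2 ht1 ht2 f1 f2 g1 g2 g3 g4
    have c3 := sw23 (w := w) hd' hn' hq' hr' hd hn hq hr hz1 hz2 hzs1 hzt1 hzs2 hzt2 ht1 ht2 f1 f2 g1 g2 g3 g4
    simp only [act_U_eval, act_U'_eval, act_Q_eval, act_R_eval, es1, et1, es2, et2]
    rw [← b1, ← b2]
    linear_combination -(V.U.eval w) * c0 - (V.U'.eval w) * c1 - (V.Q.eval w) * c2 -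
      (V.R.eval w) * c3
  · intro w
    have c0 := sw30 (w := w) hd' hn' hq' hr' hd hn hq hr hz1 hz2 hzs1 hzt1 hzs2 hzt2 ht1 ht2 f1 f2 g1 g2 g3 g4
    have c1 := sw31 (w := w) hd' hn' hq' hr' hd hn hq hr hz1 hz2 hzs1 hzt1 hzs2 hzt2 ht1 ht2 f1 f2 g1 g2 g3 g4
    have c2 := sw32 (w := w) hd' hn' hq' hr' hd hn hq hr hz1 hz2 hzs1 hzt1 hzs2 hzt2 ht1 ht2 f1 f2 g1 g2 g3 g4
    have c3 := sw33 (w := w) hd' hn' hq' hr' hd hn hq hr hz1 hz2 hzs1 hzt1 hzs2 hzt2 ht1 ht2 f1 f2 g1 g2 g3 g4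
    simp only [act_U_eval, act_U'_eval, act_Q_eval, act_R_eval, es1, et1, es2, et2]
    rw [← k1, ← k2]
    linear_combination -(V.U.eval w) * c0 - (V.U'.eval w) * c1 - (V.Q.eval w) * c2 -
      (V.R.eval w) * c3

/-- The two sides of the exchange of two neighbours. -/
lemma act_swap {e₂ e₁ : Ed ι F} (f₂ : e₂.Fine) (f₁ : e₁.Fine) (h : Nb e₂ e₁) (V : V4 F) :
    act ⟨e₁.i, e₁.b, e₁.κ, swz₁ e₂ e₁⟩ (act ⟨e₂.i, e₂.b, e₂.κ, swz₂ e₂ e₁⟩ V) =
      act e₂ (act e₁ V) := by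
  have hG : Good (AlgebraicClosure F) := Good.ext F
  obtain ⟨φ, hφ⟩ : ∃ φ : F →+* AlgebraicClosure F, φ = algebraMap F (AlgebraicClosure F) := ⟨_, rfl⟩
  apply mpV_inj φ
  rw [mpV_act, mpV_act, mpV_act, mpV_act]
  have key := act_swap' (mpE_fine φ f₂) (mpE_fine φ f₁) (mp_nb φ h) (mpV φ V)
  rw [mp_swz₁, mp_swz₂] at key
  exact key

private lemma act_flip' [Infinite F] {e : Ed ι F} (f : e.Fine) :
    act ⟨e.i, e.b, -e.κ, e.s * e.t / e.z⟩ (⟨0, 0, 1, 0⟩ : V4 F) = act e ⟨0, 0, 1, 0⟩ := by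
  obtain ⟨-, -, hs, ht, hz, hzs, hzt⟩ := f
  have es : (⟨e.i, e.b, -e.κ, e.s * e.t / e.z⟩ : Ed ι F).s = e.t := by
    unfold Ed.s Ed.t; ring
  have et : (⟨e.i, e.b, -e.κ, e.s * e.t / e.z⟩ : Ed ι F).t = e.s := by
    unfold Ed.s Ed.t; ring
  have h1 : e.s * e.t / e.z + e.t = e.t * (e.z + e.s) / e.z := by
    field_simp
    ring
  have h2 : e.s * e.t / e.z + e.s = e.s * (e.z + e.t) / e.z := by
    field_simp
    ring
  apply v4_ext
  · intro w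
    simp only [act_U_eval, es, et, h1, h2, eval_zero, eval_one]
    field_simp
    ring
  · intro w
    simp only [act_U'_eval, es, et, h1, h2, eval_zero, eval_one]
    field_simp
    ring
  · intro w
    simp only [act_Q_eval, eval_zero, eval_one]
    ring
  · intro w
    simp only [act_R_eval, eval_zero]
    ring

/-- The flip of the innermost edge. -/
lemma act_flip {e : Ed ι F} (f : e.Fine) :
    act ⟨e.i, e.b, -e.κ, e.s * e.t / e.z⟩ (⟨0, 0, 1, 0⟩ : V4 F) = act e ⟨0, 0, 1, 0⟩ := by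
  have hG : Good (AlgebraicClosure F) := Good.ext F
  obtain ⟨φ, hφ⟩ : ∃ φ : F →+* AlgebraicClosure F, φ = algebraMap F (AlgebraicClosure F) := ⟨_, rfl⟩
  apply mpV_inj φ
  have h0 : mpV φ (⟨0, 0, 1, 0⟩ : V4 F) = ⟨0, 0, 1, 0⟩ := by
    unfold mpV
    simp only [Polynomial.map_zero, Polynomial.map_one]
  have h1 : mpE φ (⟨e.i, e.b, -e.κ, e.s * e.t / e.z⟩ : Ed ι F) =
      ⟨(mpE φ e).i, (mpE φ e).b, -(mpE φ e).κ, (mpE φ e).s * (mpE φ e).t / (mpE φ e).z⟩ := by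
    rw [mpE_s, mpE_t]
    unfold mpE
    simp only [map_neg, map_div₀, map_mul]
  rw [mpV_act, mpV_act, h0, h1]
  exact act_flip' (mpE_fine φ f)

theorem vec_adj {c c' : List (Ed ι F)} (h : Adj c c') (hc : FineC c) : vec c' = vec c := by
  induction h with
  | swap e₂ e₁ c =>
    obtain ⟨f₂, -, hn, -, f₁, -⟩ := hc
    exact act_swap f₂ f₁ (hn e₁ (by simp)) (vec c)
  | flip e => exact act_flip hc.1
  | cons e h ih =>
    change act e (vec _) = act e (vec _)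
    rw [ih hc.2.2.2.2]

/-- The product of the `Υ` is not changed by the exchange. -/
lemma ups_swap {e₂ e₁ : Ed ι F} (f₂ : e₂.Fine) (f₁ : e₁.Fine) (h : Nb e₂ e₁) :
    (⟨e₁.i, e₁.b, e₁.κ, swz₁ e₂ e₁⟩ : Ed ι F).ups * (⟨e₂.i, e₂.b, e₂.κ, swz₂ e₂ e₁⟩ : Ed ι F).ups =
      e₂.ups * e₁.ups := by
  obtain ⟨g1, g2, g3, g4⟩ := sw_rel h
  obtain ⟨-, -, hs2, ht2, hz2, hzs2, hzt2⟩ := f₂
  obtain ⟨-, -, hs1, ht1, hz1, hzs1, hzt1⟩ := f₁
  obtain ⟨hd, hn, hq, hr⟩ := h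
  have f1 : swz₁ e₂ e₁ = e₁.t * e₂.z * nA e₂ e₁ / dA e₂ e₁ := rfl
  have f2 : swz₂ e₂ e₁ = e₂.t * e₁.z * nB e₂ e₁ / dB e₂ e₁ := rfl
  change (swz₁ e₂ e₁ + e₁.s) * (swz₁ e₂ e₁ + e₁.t) / swz₁ e₂ e₁ *
    ((swz₂ e₂ e₁ + e₂.s) * (swz₂ e₂ e₁ + e₂.t) / swz₂ e₂ e₁) =
    (e₂.z + e₂.s) * (e₂.z + e₂.t) / e₂.z * ((e₁.z + e₁.s) * (e₁.z + e₁.t) / e₁.z)
  rw [g1, g2, g3, g4, f1, f2]
  field_simp

lemma ups_flip {e : Ed ι F} (f : e.Fine) :
    (⟨e.i, e.b, -e.κ, e.s * e.t / e.z⟩ : Ed ι F).ups = e.ups := by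
  obtain ⟨-, -, hs, ht, hz, hzs, hzt⟩ := f
  have es : (⟨e.i, e.b, -e.κ, e.s * e.t / e.z⟩ : Ed ι F).s = e.t := by
    unfold Ed.s Ed.t; ring
  have et : (⟨e.i, e.b, -e.κ, e.s * e.t / e.z⟩ : Ed ι F).t = e.s := by
    unfold Ed.s Ed.t; ring
  unfold Ed.ups
  rw [es, et]
  change (e.s * e.t / e.z + e.t) * (e.s * e.t / e.z + e.s) / (e.s * e.t / e.z) = _
  field_simp
  ring

theorem upc_adj {c c' : List (Ed ι F)} (h : Adj c c') (hc : FineC c) : upc c' = upc c := by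
  induction h with
  | swap e₂ e₁ c =>
    obtain ⟨f₂, -, hn, -, f₁, -⟩ := hc
    have h1 := ups_swap f₂ f₁ (hn e₁ (by simp))
    unfold upc
    simp only [List.map_cons, List.prod_cons]
    rw [← mul_assoc, h1, mul_assoc]
  | flip e =>
    have h1 := ups_flip hc.1
    unfold upc
    simp only [List.map_cons, List.prod_cons]
    rw [h1]
  | cons e h ih =>
    have h1 := ih hc.2.2.2.2
    unfold upc at *
    simp only [List.map_cons, List.prod_cons]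
    rw [h1]

private lemma form_act' [Infinite F] {e : Ed ι F} (f : e.Fine) (V : V4 F) :
    (act e V).form = (C (e.b ^ 2) - C (e.s * e.t) * X) * V.form := by
  obtain ⟨-, -, hs, ht, hz, hzs, hzt⟩ := f
  apply Polynomial.funext
  intro w
  unfold V4.form
  simp only [eval_sub, eval_mul, eval_pow, eval_X, eval_C, eval_ofNat, act_U_eval, act_U'_eval,
    act_Q_eval, act_R_eval]
  rw [← s_add_t e, ← s_sub_t e]
  field_simp
  ring

/-- The quadratic form is multiplied by `b ^ 2 - σ β w`. -/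
lemma form_act {e : Ed ι F} (f : e.Fine) (V : V4 F) :
    (act e V).form = (C (e.b ^ 2) - C (e.s * e.t) * X) * V.form := by
  have hG : Good (AlgebraicClosure F) := Good.ext F
  obtain ⟨φ, hφ⟩ : ∃ φ : F →+* AlgebraicClosure F, φ = algebraMap F (AlgebraicClosure F) := ⟨_, rfl⟩
  apply Polynomial.map_injective φ φ.injective
  have key := form_act' (mpE_fine φ f) (mpV φ V)
  rw [← mpV_act, mpV_form, mpV_form, mpE_s, mpE_t] at key
  rw [key]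
  unfold mpE
  simp only [Polynomial.map_mul, Polynomial.map_sub, Polynomial.map_pow, Polynomial.map_C, Polynomial.map_X, map_mul, map_pow]

theorem star {c : List (Ed ι F)} (hc : ∀ e ∈ c, e.Fine) :
    (vec c).form = (c.map fun e => C (e.b ^ 2) - C (e.s * e.t) * X).prod := by
  induction c with
  | nil => simp [vec, V4.form]
  | cons e c ih =>
    rw [List.map_cons, List.prod_cons, ← ih (fun e' h => hc e' (List.mem_cons_of_mem _ h))]
    exact form_act (hc e List.mem_cons_self) (vec c)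

lemma co_X {p : F[X]} {n : ℕ} (h : ∀ m, n ≤ m → p.coeff m = 0) (m : ℕ) (hm : n + 1 ≤ m) :
    (X * p).coeff m = 0 := by
  obtain ⟨m, rfl⟩ : ∃ l, m = l + 1 := ⟨m - 1, by omega⟩
  rw [coeff_X_mul]
  exact h m (by omega)

lemma co_X4 {p : F[X]} {n : ℕ} (h : ∀ m, n ≤ m → p.coeff m = 0) (m : ℕ) (hm : n + 1 ≤ m) :
    ((X - 4) * p).coeff m = 0 := by
  have e4 : (4 : F[X]) = C 4 := (map_ofNat C 4).symm
  rw [sub_mul, coeff_sub, co_X h m hm, e4, coeff_C_mul, h m (by omega)]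
  ring

lemma deg_act (e : Ed ι F) {V : V4 F} {n : ℕ} (h : V.Deg n) : (act e V).Deg (n + 1) := by
  obtain ⟨h1, h2, h3, h4⟩ := h
  refine ⟨fun m hm => ?_, fun m hm => ?_, fun m hm => ?_, fun m hm => ?_⟩
  · change (C _ * (C e.z * V.U + C (e.t ^ 2 / e.z) * V.U' + C e.t * (V.Q + (X - 4) * V.R))).coeff m = 0
    rw [coeff_C_mul, coeff_add, coeff_add, coeff_C_mul, coeff_C_mul, coeff_C_mul, coeff_add,
      h1 m (by omega), h2 m (by omega), h3 m (by omega), co_X4 h4 m (by omega)]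
    ring
  · change (C _ * (C e.z * V.U + C (e.s ^ 2 / e.z) * V.U' + C e.s * (V.Q - (X - 4) * V.R))).coeff m = 0
    rw [coeff_C_mul, coeff_add, coeff_add, coeff_C_mul, coeff_C_mul, coeff_C_mul, coeff_sub,
      h1 m (by omega), h2 m (by omega), h3 m (by omega), co_X4 h4 m (by omega)]
    ring
  · change (C e.b * V.Q + C 2⁻¹ * X * (C e.z * V.U + C (e.s * e.t / e.z) * V.U')).coeff m = 0
    rw [coeff_add, coeff_C_mul, mul_assoc, coeff_C_mul, h3 m (by omega),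
      co_X (n := (n + 1) / 2) (p := C e.z * V.U + C (e.s * e.t / e.z) * V.U') ?_ m (by omega)]
    · ring
    · intro m' hm'
      rw [coeff_add, coeff_C_mul, coeff_C_mul, h1 m' hm', h2 m' hm']
      ring
  · change (C e.κ * V.R + C 2⁻¹ * (C e.z * V.U - C (e.s * e.t / e.z) * V.U')).coeff m = 0
    rw [coeff_add, coeff_C_mul, coeff_C_mul, coeff_sub, coeff_C_mul, coeff_C_mul, h4 m (by omega),
      h1 m hm, h2 m hm]
    ring

theorem deg_vec (c : List (Ed ι F)) : (vec c).Deg c.length := by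
  induction c with
  | nil =>
    refine ⟨fun m _ => ?_, fun m _ => ?_, fun m hm => ?_, fun m _ => ?_⟩
    · exact coeff_zero m
    · exact coeff_zero m
    · change (1 : F[X]).coeff m = 0
      rw [coeff_one, if_neg (by simp at hm; omega)]
    · exact coeff_zero m
  | cons e c ih => exact deg_act e ih

theorem Q_zero (c : List (Ed ι F)) : (vec c).Q.eval 0 = (c.map fun e => e.b).prod := by
  induction c with
  | nil => simp [vec]
  | cons e c ih =>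
    rw [List.map_cons, List.prod_cons, ← ih]
    change (act e (vec c)).Q.eval 0 = _
    rw [act_Q_eval]
    ring

lemma N_act {e : Ed ι F} (f : e.Fine) (V : V4 F) : e.ups * (act e V).N = e.κ ^ 2 * V.N := by
  obtain ⟨-, -, hs, ht, hz, hzs, hzt⟩ := f
  unfold V4.N Ed.ups
  rw [act_U_eval, act_U'_eval, act_Q_eval, ← s_add_t e, ← s_sub_t e, sub_self]
  field_simp
  ring

theorem nrel {c : List (Ed ι F)} (hc : ∀ e ∈ c, e.Fine) : upc c * (vec c).N = kap c ^ 2 := by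
  induction c with
  | nil => simp [vec, upc, kap, V4.N]
  | cons e c ih =>
    have h1 := ih (fun e' h => hc e' (List.mem_cons_of_mem _ h))
    have h2 := N_act (hc e List.mem_cons_self) (vec c)
    change upc (e :: c) * (act e (vec c)).N = kap (e :: c) ^ 2
    unfold upc kap at *
    simp only [List.map_cons, List.prod_cons]
    linear_combination (c.map fun e => e.ups).prod * h2 + e.κ ^ 2 * h1

theorem zz {c : List (Ed ι F)} (hc : ∀ e ∈ c, e.Fine) :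
    4 * (vec c).z * (vec c).z' = (vec c).Q.eval 4 ^ 2 - kap c ^ 2 := by
  have h1 : (vec c).form.eval 4 = kap c ^ 2 := by
    rw [star hc]
    unfold kap
    clear hc
    induction c with
    | nil => simp
    | cons e c ih =>
      simp only [List.map_cons, List.prod_cons, eval_mul]
      rw [ih, ← s_sub_t e, ← s_add_t e]
      simp only [eval_sub, eval_mul, eval_C, eval_X]
      ring
  unfold V4.form at h1
  unfold V4.z V4.z'
  simp only [eval_sub, eval_mul, eval_pow, eval_X, eval_ofNat, sub_self] at h1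
  linear_combination -h1

end Pool.Agent.Helper15.VN

end CX
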