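import Mathlib
import Pool.Agent.Helper40.CX.H15VN.Fam
import Pool.Agent.Helper40.CX.H15VN.RD
import Pool.Agent.Helper40.CX.H83VF.Res
import Pool.Agent.Helper40.CX.Good2

namespace CX

/-!
# Values of chains at places
-/

set_option linter.unusedSectionVars false

namespace Pool.Agent.Helper15.VN

open Polynomial VC VF Pool.Agent.Helper83.VN

universe u

variable {k : Type u} [Field k] {K : Type u} [Field K] [Algebra k K] {v : Place k K}

section basic

variable {x y : K} {c d : k}

lemma isRes_inv (h : IsRes v x c) (hc : c ≠ 0) : IsRes v x⁻¹ c⁻¹ := by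
  obtain ⟨hx, hx'⟩ := h.inv_mem hc
  have hc' : algebraMap k K c ≠ 0 := (_root_.map_ne_zero _).mpr hc
  have h1 : x⁻¹ - algebraMap k K c⁻¹ = (-(x⁻¹ * algebraMap k K c⁻¹)) * (x - algebraMap k K c) := by
    rw [map_inv₀]
    field_simp
    ring
  unfold IsRes
  rw [h1]
  refine nonunits_mul ?_ h
  exact v.ring.neg_mem _ (v.ring.mul_mem _ _ hx' (v.algebraMap_mem _))

lemma isRes_div (h : IsRes v x c) (h' : IsRes v y d) (hd : d ≠ 0) : IsRes v (x / y) (c / d) := by
  rw [div_eq_mul_inv, div_eq_mul_inv]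
  exact h.mul (isRes_inv h' hd)

lemma isRes_ofNat (n : ℕ) [n.AtLeastTwo] : IsRes v (OfNat.ofNat n : K) (OfNat.ofNat n : k) := by
  have := isRes_const (v := v) (OfNat.ofNat n : k)
  rwa [map_ofNat] at this

end basic

section poly

/-- The values of the coefficients. -/
def PRes (v : Place k K) (p : K[X]) (q : k[X]) : Prop := ∀ m, IsRes v (p.coeff m) (q.coeff m)

variable {p p' : K[X]} {q q' : k[X]}

lemma PRes.add (h : PRes v p q) (h' : PRes v p' q') : PRes v (p + p') (q + q') := by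
  intro m
  rw [coeff_add, coeff_add]
  exact (h m).add (h' m)

lemma PRes.sub (h : PRes v p q) (h' : PRes v p' q') : PRes v (p - p') (q - q') := by
  intro m
  rw [coeff_sub, coeff_sub]
  exact (h m).sub (h' m)

lemma PRes.mul (h : PRes v p q) (h' : PRes v p' q') : PRes v (p * p') (q * q') := by
  intro m
  rw [coeff_mul, coeff_mul]
  exact IsRes.sum _ fun i _ => (h i.1).mul (h' i.2)

lemma pres_C {x : K} {c : k} (h : IsRes v x c) : PRes v (C x) (C c) := by
  intro m
  rw [coeff_C, coeff_C]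
  split_ifs
  · exact h
  · exact isRes_zero

lemma pres_X : PRes v (X : K[X]) (X : k[X]) := by
  intro m
  rw [coeff_X, coeff_X]
  split_ifs
  · exact isRes_one
  · exact isRes_zero

lemma pres_zero : PRes v (0 : K[X]) (0 : k[X]) := by
  intro m
  rw [coeff_zero, coeff_zero]
  exact isRes_zero

lemma pres_one : PRes v (1 : K[X]) (1 : k[X]) := pres_C isRes_one

lemma pres_four : PRes v (4 : K[X]) (4 : k[X]) := by
  have e1 : (4 : K[X]) = C 4 := (map_ofNat C 4).symm
  have e2 : (4 : k[X]) = C 4 := (map_ofNat C 4).symm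
  rw [e1, e2]
  exact pres_C (isRes_ofNat 4)

lemma PRes.eval (h : PRes v p q) {x : K} {c : k} (hx : IsRes v x c) :
    IsRes v (p.eval x) (q.eval c) := by
  have h1 : p.natDegree < max p.natDegree q.natDegree + 1 := by omega
  have h2 : q.natDegree < max p.natDegree q.natDegree + 1 := by omega
  rw [eval_eq_sum_range' h1, eval_eq_sum_range' h2]
  exact IsRes.sum _ fun i _ => (h i).mul (hx.pow i)

end poly

section edges

variable [Good k] {ι ι' : Type*} {e : Ed ι' K} {e₀ : Ed ι k}

lemma half_res {x : K} {c : k} (h : IsRes v x c) : IsRes v (x / 2) (c / 2) :=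
  isRes_div h (isRes_ofNat 2) two_ne_zero

lemma res_s (h : Ed.Res v e e₀) : IsRes v e.s e₀.s := half_res (h.1.add h.2.1)

lemma res_t (h : Ed.Res v e e₀) : IsRes v e.t e₀.t := half_res (h.1.sub h.2.1)

lemma res_w (h : Ed.Res v e e₀) (f : e₀.Fine) : IsRes v e.w e₀.w :=
  isRes_div (h.1.pow 2) ((res_s h).mul (res_t h)) (mul_ne_zero f.s f.t)

lemma fine_res (h : Ed.Res v e e₀) (f : e₀.Fine) : e.Fine where
  b := h.1.ne_zero f.b
  κ := h.2.1.ne_zero f.κ
  s := (res_s h).ne_zero f.s
  t := (res_t h).ne_zero f.t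
  z := h.2.2.ne_zero f.z
  zs := (h.2.2.add (res_s h)).ne_zero f.zs
  zt := (h.2.2.add (res_t h)).ne_zero f.zt

lemma act_res (h : Ed.Res v e e₀) (f : e₀.Fine) {V : V4 K} {V₀ : V4 k} (hV : V.Res v V₀) :
    (act e V).Res v (act e₀ V₀) := by
  obtain ⟨h1, h2, h3, h4⟩ := hV
  have hs := res_s h
  have ht := res_t h
  have hz := h.2.2
  have h2' : IsRes v (2⁻¹ : K) (2⁻¹ : k) := isRes_inv (isRes_ofNat 2) two_ne_zero
  have r1 := isRes_div (hz.add hs) (hz.add ht) f.zt
  have r2 := isRes_div (hz.add ht) (hz.add hs) f.zs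
  have r3 := isRes_div (ht.pow 2) hz f.z
  have r4 := isRes_div (hs.pow 2) hz f.z
  have r5 := isRes_div (hs.mul ht) hz f.z
  have U : PRes v V.U V₀.U := h1
  have U' : PRes v V.U' V₀.U' := h2
  have Q : PRes v V.Q V₀.Q := h3
  have R : PRes v V.R V₀.R := h4
  have X4 : PRes v (X - 4 : K[X]) (X - 4 : k[X]) := pres_X.sub pres_four
  refine ⟨?_, ?_, ?_, ?_⟩
  · exact (pres_C r1).mul (((((pres_C hz).mul U).add ((pres_C r3).mul U'))).add
      ((pres_C ht).mul (Q.add (X4.mul R))))
  · exact (pres_C r2).mul (((((pres_C hz).mul U).add ((pres_C r4).mul U'))).add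
      ((pres_C hs).mul (Q.sub (X4.mul R))))
  · exact ((pres_C h.1).mul Q).add (((pres_C h2').mul pres_X).mul
      (((pres_C hz).mul U).add ((pres_C r5).mul U')))
  · exact ((pres_C h.2.1).mul R).add ((pres_C h2').mul
      (((pres_C hz).mul U).sub ((pres_C r5).mul U')))

lemma vec_nil_res : (vec ([] : List (Ed ι' K))).Res v (vec ([] : List (Ed ι k))) :=
  ⟨pres_zero, pres_zero, pres_one, pres_zero⟩

/-- The values of the numerators and denominators of the exchange. -/
lemma nb_res {e' : Ed ι' K} {e₀' : Ed ι k} (h : Ed.Res v e e₀) (h' : Ed.Res v e' e₀') :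
    IsRes v (dA e e') (dA e₀ e₀') ∧ IsRes v (nA e e') (nA e₀ e₀') ∧ IsRes v (dB e e') (dB e₀ e₀') ∧
      IsRes v (nB e e') (nB e₀ e₀') := by
  have s := res_s h
  have t := res_t h
  have z := h.2.2
  have s' := res_s h'
  have t' := res_t h'
  have z' := h'.2.2
  refine ⟨?_, ?_, ?_, ?_⟩
  · exact ((((t.mul z').mul z).add ((s.mul t).mul z')).add ((s.mul t').mul z)).add
      ((s.mul t').mul t)
  · exact (((z'.mul z).add (s.mul z')).add (s'.mul z)).add (s'.mul t)
  · exact ((((t'.mul z').mul z).add ((s'.mul t').mul z)).add ((s'.mul t).mul z')).add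
      ((s'.mul t').mul t)
  · exact (((z'.mul z).add (s'.mul z)).add (s.mul z')).add (s.mul t')

lemma nb_ne {e' : Ed ι' K} {e₀' : Ed ι k} (h : Ed.Res v e e₀) (h' : Ed.Res v e' e₀')
    (hn : Nb e₀ e₀') : Nb e e' := by
  obtain ⟨h1, h2, h3, h4⟩ := nb_res h h'
  exact ⟨h1.ne_zero hn.1, h2.ne_zero hn.2.1, h3.ne_zero hn.2.2.1, h4.ne_zero hn.2.2.2⟩

lemma dn_res (h : Ed.Res v e e₀) {x : K} {x₀ : k} (hx : IsRes v x x₀) (hd : dn e₀ x₀ ≠ 0) :
    IsRes v (dn e x) (dn e₀ x₀) := by
  have s := res_s h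
  have t := res_t h
  have z := h.2.2
  refine isRes_div (((s.mul (z.add t)).mul hx).sub (t.mul (z.add s)))
    (z.mul ((z.add s).sub ((z.add t).mul hx))) ?_
  intro h0
  apply hd
  unfold dn
  rw [h0, div_zero]

end edges

section chains

variable [Good k] {ι ι' : Type*}

theorem vec_res' {c : List (Ed ι' K)} {c₀ : List (Ed ι k)} (h : List.Forall₂ (Ed.Res v) c c₀)
    (hc : FineC c₀) : (vec c).Res v (vec c₀) := by
  induction h with
  | nil => exact vec_nil_res
  | cons h _ ih => exact act_res h hc.1 (ih hc.2.2.2.2)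

theorem fine_of_res' {c : List (Ed ι' K)} {c₀ : List (Ed ι k)}
    (h : List.Forall₂ (Ed.Res v) c c₀) (hc : FineC c₀) : FineC c := by
  induction h with
  | nil => trivial
  | @cons e e₀ c c₀ h hl ih =>
    obtain ⟨h1, h2, h3, h4, h5⟩ := hc
    refine ⟨fine_res h h1, ?_, ?_, ?_, ih h5⟩
    · intro e' he' h0
      clear ih h3 h4
      induction hl with
      | nil => simp at he'
      | @cons e₁ e₁₀ c c₀ h' hl' ih' =>
        rcases List.mem_cons.mp he' with rfl | he'
        · apply h2 e₁₀ List.mem_cons_self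
          have r1 := res_w h h1
          have r2 := res_w h' h5.1
          rw [h0] at r2
          exact r2.unique r1
        · exact ih' (fun e'' he'' => h2 e'' (List.mem_cons_of_mem _ he'')) h5.2.2.2.2 he'
    · intro e' he'
      cases hl with
      | nil => simp at he'
      | cons h' _ =>
        rw [List.head?_cons, Option.mem_some_iff] at he'
        subst he'
        exact nb_ne h h' (h3 _ (by simp))
    · have r := (act_res h h1 (vec_res' hl h5)).2.1
      exact (PRes.eval r (res_w h h1)).ne_zero h4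

theorem fam_res' {c : List (Ed ι' K)} {c₀ : List (Ed ι k)} (h : List.Forall₂ (Ed.Res v) c c₀)
    {x : K} {x₀ : k} (hx : IsRes v x x₀) (hf : FineC (fam c₀ x₀)) :
    List.Forall₂ (Ed.Res v) (fam c x) (fam c₀ x₀) := by
  induction h generalizing x x₀ with
  | nil => exact List.Forall₂.nil
  | @cons e e₀ c c₀ h _ ih =>
    have f := hf.1
    have hd : dn e₀ x₀ ≠ 0 := right_ne_zero_of_mul f.z
    have r := dn_res h hx hd
    exact List.Forall₂.cons ⟨h.1, h.2.1, h.2.2.mul r⟩ (ih r hf.2.2.2.2)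

end chains

section iface

variable [IsAlgClosed k] [Good k] {ι ι' : Type*}

theorem fine_of_res (_hK : IsFunctionField k K) (v : Place k K) {c : List (Ed ι' K)}
    {c₀ : List (Ed ι k)} (h : List.Forall₂ (Ed.Res v) c c₀) (hc : FineC c₀) : FineC c :=
  fine_of_res' h hc

theorem vec_res (_hK : IsFunctionField k K) (v : Place k K) {c : List (Ed ι' K)}
    {c₀ : List (Ed ι k)} (h : List.Forall₂ (Ed.Res v) c c₀) (hc : FineC c₀) :
    (vec c).Res v (vec c₀) := vec_res' h hc

theorem fam_res (_hK : IsFunctionField k K) (v : Place k K) {c : List (Ed ι' K)}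
    {c₀ : List (Ed ι k)} (h : List.Forall₂ (Ed.Res v) c c₀) {x : K} {x₀ : k} (hx : IsRes v x x₀)
    (_hc : FineC c₀) (hf : FineC (fam c₀ x₀)) :
    List.Forall₂ (Ed.Res v) (fam c x) (fam c₀ x₀) := fam_res' h hx hf

end iface

end Pool.Agent.Helper15.VN

end CX
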