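import Mathlib
import Pool.Agent.Helper40.CX.H15VN.Res
import Pool.Agent.Helper40.CX.Good2

namespace CX

/-!
# Existence of the factorisation over a function field
-/

set_option linter.unusedSectionVars false

namespace Pool.Agent.Helper15.VN

open Polynomial VC VF Pool.Agent.Helper83.VN

universe u

section algebra

variable {ι F : Type*} [Field F] [Good F]

/-- The bounds for the number of coefficients of a quotient by a linear polynomial. -/
lemma co_div {a d : F} (hd : d ≠ 0) {q : F[X]} {N : ℕ}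
    (h : ∀ m, N + 1 ≤ m → ((C a - C d * X) * q).coeff m = 0) (m : ℕ) (hm : N ≤ m) :
    q.coeff m = 0 := by
  have h1 : ∀ m, N ≤ m → q.coeff m = a / d * q.coeff (m + 1) := by
    intro m hm
    have h2 := h (m + 1) (by omega)
    rw [sub_mul, coeff_sub, coeff_C_mul, mul_assoc, coeff_C_mul, coeff_X_mul] at h2
    field_simp
    linear_combination -h2
  have h3 : ∀ j m, N ≤ m → q.coeff m = (a / d) ^ j * q.coeff (m + j) := by
    intro j
    induction j with
    | zero => intro m _; simp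
    | succ j ih =>
      intro m hm
      rw [ih m hm, h1 (m + j) (by omega), pow_succ, mul_assoc]
      rfl
  rw [h3 (q.natDegree + 1) m hm, coeff_eq_zero_of_natDegree_lt (by omega), mul_zero]

lemma act_smu (e : Ed ι F) (p : F[X]) (V : V4 F) : act e (smu p V) = smu p (act e V) := by
  apply V4.ext
  · change C _ * (C e.z * (p * V.U) + C _ * (p * V.U') + C e.t * (p * V.Q + (X - 4) * (p * V.R))) =
      p * (C _ * (C e.z * V.U + C _ * V.U' + C e.t * (V.Q + (X - 4) * V.R)))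
    ring
  · change C _ * (C e.z * (p * V.U) + C _ * (p * V.U') + C e.s * (p * V.Q - (X - 4) * (p * V.R))) =
      p * (C _ * (C e.z * V.U + C _ * V.U' + C e.s * (V.Q - (X - 4) * V.R)))
    ring
  · change C e.b * (p * V.Q) + C 2⁻¹ * X * (C e.z * (p * V.U) + C _ * (p * V.U')) =
      p * (C e.b * V.Q + C 2⁻¹ * X * (C e.z * V.U + C _ * V.U'))
    ring
  · change C e.κ * (p * V.R) + C 2⁻¹ * (C e.z * (p * V.U) - C _ * (p * V.U')) =
      p * (C e.κ * V.R + C 2⁻¹ * (C e.z * V.U - C _ * V.U'))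
    ring

/-- The components of the inverse action vanish at the spectral value. -/
lemma inva_root {e : Ed ι F} (f : e.Fine) {V : V4 F} (hU : V.U'.eval e.w ≠ 0)
    (hf : V.form.eval e.w = 0)
    (ho : e.b * V.U'.eval e.w * (e.z + e.s) = e.s * (V.Q.eval e.w -
      e.b * e.κ / (e.s * e.t) * V.R.eval e.w) * (e.z + e.t)) :
    (inva e V).U.eval e.w = 0 ∧ (inva e V).U'.eval e.w = 0 ∧ (inva e V).Q.eval e.w = 0 ∧
      (inva e V).R.eval e.w = 0 := by
  rw [inva_U_eval, inva_U'_eval, inva_Q_eval, inva_R_eval]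
  unfold V4.form at hf
  simp only [eval_sub, eval_mul, eval_pow, eval_X, eval_ofNat] at hf
  have hw : e.w = e.b ^ 2 / (e.s * e.t) := rfl
  obtain ⟨hb, hκ, hs, ht, hz, hzs, hzt⟩ := f
  generalize V.U.eval e.w = u at *
  generalize V.U'.eval e.w = u' at *
  generalize V.Q.eval e.w = q at *
  generalize V.R.eval e.w = r at *
  have hb' := s_add_t e
  have hκ' := s_sub_t e
  -- `Q - c R` and `Q + c R`
  obtain ⟨c, hc⟩ : ∃ c, c = e.b * e.κ / (e.s * e.t) := ⟨_, rfl⟩
  rw [← hc] at ho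
  have h1 : q - c * r = e.b * (e.z + e.s) / (e.s * (e.z + e.t)) * u' := by
    field_simp
    linear_combination -ho
  have hne : q - c * r ≠ 0 := by
    rw [h1]
    exact mul_ne_zero (div_ne_zero (mul_ne_zero hb hzs) (mul_ne_zero hs hzt)) hU
  have hcw : e.w * (e.w - 4) = c ^ 2 := by
    rw [hw, hc, ← hb', ← hκ']
    field_simp
    ring
  have h2 : (q - c * r) * (q + c * r) = e.w * u * u' := by
    linear_combination hf + r ^ 2 * hcw
  have h3 : q + c * r = e.b * (e.z + e.t) / (e.t * (e.z + e.s)) * u := by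
    apply mul_left_cancel₀ hne
    rw [h2, h1, hw]
    field_simp
  have hq : q = (e.b * (e.z + e.s) / (e.s * (e.z + e.t)) * u' +
      e.b * (e.z + e.t) / (e.t * (e.z + e.s)) * u) / 2 := by
    linear_combination (norm := (field_simp; ring)) (h1 + h3) / 2
  have hr : r = (e.b * (e.z + e.t) / (e.t * (e.z + e.s)) * u -
      e.b * (e.z + e.s) / (e.s * (e.z + e.t)) * u') / 2 * (e.s * e.t / (e.b * e.κ)) := by
    have hc0 : c * (e.s * e.t / (e.b * e.κ)) = 1 := by
      rw [hc]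
      field_simp
    have hi2 : (2 : F) * 2⁻¹ = 1 := mul_inv_cancel₀ Good.n2
    linear_combination (e.s * e.t / (e.b * e.κ)) * (h3 - h1) / 2 - r * hc0 -
      (r * e.s * e.t * e.b⁻¹ * e.κ⁻¹ * c) * hi2
  have hb0 : e.s + e.t ≠ 0 := by rw [hb']; exact hb
  have hκ0 : e.s - e.t ≠ 0 := by rw [hκ']; exact hκ
  rw [hq, hr, hw, ← hb', ← hκ']
  refine ⟨?_, ?_, ?_, ?_⟩
  · field_simp
    ring
  · field_simp
    ring
  · field_simp
    ring
  · field_simp
    ring

/-- Division by the linear polynomial. -/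
lemma exists_quot {e : Ed ι F} (f : e.Fine) {V : V4 F} (hU : V.U'.eval e.w ≠ 0)
    (hf : V.form.eval e.w = 0)
    (ho : e.b * V.U'.eval e.w * (e.z + e.s) = e.s * (V.Q.eval e.w -
      e.b * e.κ / (e.s * e.t) * V.R.eval e.w) * (e.z + e.t)) :
    ∃ V₁ : V4 F, smu (C (e.b ^ 2) - C (e.s * e.t) * X) V₁ = inva e V ∧ act e V₁ = V := by
  obtain ⟨r1, r2, r3, r4⟩ := inva_root f hU hf ho
  have hst : e.s * e.t ≠ 0 := mul_ne_zero f.s f.t
  have key : ∀ p : F[X], p.eval e.w = 0 → ∃ q, (C (e.b ^ 2) - C (e.s * e.t) * X) * q = p := by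
    intro p hp
    obtain ⟨q, hq⟩ := dvd_iff_isRoot.mpr (show p.IsRoot e.w from hp)
    refine ⟨C (-(e.s * e.t)⁻¹) * q, ?_⟩
    rw [hq]
    have e1 : (C (e.b ^ 2) - C (e.s * e.t) * X : F[X]) = C (-(e.s * e.t)) * (X - C e.w) := by
      have e2 : e.b ^ 2 = e.s * e.t * e.w := (mul_div_cancel₀ _ hst).symm
      rw [e2, C_mul, C_neg]
      ring
    rw [e1]
    have e3 : (C (-(e.s * e.t)) * C (-(e.s * e.t)⁻¹) : F[X]) = 1 := by
      rw [← C_mul, neg_mul_neg, mul_inv_cancel₀ hst, C_1]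
    linear_combination ((X - C e.w) * q) * e3
  obtain ⟨q1, h1⟩ := key _ r1
  obtain ⟨q2, h2⟩ := key _ r2
  obtain ⟨q3, h3⟩ := key _ r3
  obtain ⟨q4, h4⟩ := key _ r4
  have hq : smu (C (e.b ^ 2) - C (e.s * e.t) * X) ⟨q1, q2, q3, q4⟩ = inva e V :=
    V4.ext h1 h2 h3 h4
  refine ⟨⟨q1, q2, q3, q4⟩, hq, ?_⟩
  apply smu_inj (fac_ne f)
  rw [← act_smu, hq, act_inva f]

lemma deg_quot {e : Ed ι F} (f : e.Fine) {V V₁ : V4 F} {n : ℕ}
    (h : smu (C (e.b ^ 2) - C (e.s * e.t) * X) V₁ = inva e V) (hd : V.Deg (n + 1)) :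
    V₁.Deg n := by
  obtain ⟨d1, d2, d3, d4⟩ := hd
  have hst : e.s * e.t ≠ 0 := mul_ne_zero f.s f.t
  have h1 : (C (e.b ^ 2) - C (e.s * e.t) * X) * V₁.U = (inva e V).U := congrArg V4.U h
  have h2 : (C (e.b ^ 2) - C (e.s * e.t) * X) * V₁.U' = (inva e V).U' := congrArg V4.U' h
  have h3 : (C (e.b ^ 2) - C (e.s * e.t) * X) * V₁.Q = (inva e V).Q := congrArg V4.Q h
  have h4 : (C (e.b ^ 2) - C (e.s * e.t) * X) * V₁.R = (inva e V).R := congrArg V4.R h
  refine ⟨?_, ?_, ?_, ?_⟩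
  · apply co_div hst
    intro m hm
    rw [h1]
    change (C _ * V.U + C _ * V.U' - C _ * (V.Q + (X - 4) * V.R)).coeff m = 0
    rw [coeff_sub, coeff_add, coeff_C_mul, coeff_C_mul, coeff_C_mul, coeff_add, d1 m (by omega),
      d2 m (by omega), d3 m (by omega), co_X4 d4 m (by omega)]
    ring
  · apply co_div hst
    intro m hm
    rw [h2]
    change (C _ * V.U + C _ * V.U' - C _ * (V.Q - (X - 4) * V.R)).coeff m = 0
    rw [coeff_sub, coeff_add, coeff_C_mul, coeff_C_mul, coeff_C_mul, coeff_sub, d1 m (by omega),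
      d2 m (by omega), d3 m (by omega), co_X4 d4 m (by omega)]
    ring
  · apply co_div hst
    intro m hm
    rw [h3]
    change (C e.b * V.Q - C 2⁻¹ * X * (C _ * V.U + C _ * V.U')).coeff m = 0
    rw [coeff_sub, coeff_C_mul, mul_assoc, coeff_C_mul, d3 m (by omega),
      co_X (n := (n + 1 + 1) / 2) (fun m' hm' => by
        rw [coeff_add, coeff_C_mul, coeff_C_mul, d1 m' hm', d2 m' hm']
        ring) m (by omega)]
    ring
  · apply co_div hst
    intro m hm
    rw [h4]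
    change (C e.κ * V.R - C 2⁻¹ * (C _ * V.U - C _ * V.U')).coeff m = 0
    rw [coeff_sub, coeff_C_mul, coeff_C_mul, coeff_sub, coeff_C_mul, coeff_C_mul, d4 m (by omega),
      d1 m (by omega), d2 m (by omega)]
    ring

end algebra

section places

variable {k : Type u} [Field k] [Good k] {K : Type u} [Field K] [Algebra k K]
  {v : Place k K} {ι ι' : Type*}

lemma pres_div {a d : K} {a₀ d₀ : k} (ha : IsRes v a a₀) (hd : IsRes v d d₀) (h0 : a₀ ≠ 0)
    {q : K[X]} {q₀ : k[X]} (h : PRes v ((C a - C d * X) * q) ((C a₀ - C d₀ * X) * q₀)) :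
    PRes v q q₀ := by
  have ha0 := ha.ne_zero h0
  intro m
  induction m with
  | zero =>
    have h1 := h 0
    rw [sub_mul, coeff_sub, coeff_C_mul, mul_assoc, coeff_C_mul, coeff_X_mul_zero, sub_mul,
      coeff_sub, coeff_C_mul, mul_assoc, coeff_C_mul, coeff_X_mul_zero, mul_zero, mul_zero,
      sub_zero, sub_zero] at h1
    have h2 := isRes_div h1 ha h0
    rwa [mul_div_cancel_left₀ _ ha0, mul_div_cancel_left₀ _ h0] at h2
  | succ m ih =>
    have h1 := h (m + 1)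
    rw [sub_mul, coeff_sub, coeff_C_mul, mul_assoc, coeff_C_mul, coeff_X_mul, sub_mul,
      coeff_sub, coeff_C_mul, mul_assoc, coeff_C_mul, coeff_X_mul] at h1
    have h2 := isRes_div (h1.add (hd.mul ih)) ha h0
    rwa [sub_add_cancel, sub_add_cancel, mul_div_cancel_left₀ _ ha0, mul_div_cancel_left₀ _ h0] at h2

lemma inva_res {e : Ed ι' K} {e₀ : Ed ι k} (h : Ed.Res v e e₀) (f : e₀.Fine) {V : V4 K}
    {V₀ : V4 k} (hV : V.Res v V₀) : (inva e V).Res v (inva e₀ V₀) := by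
  obtain ⟨h1, h2, h3, h4⟩ := hV
  have hs := res_s h
  have ht := res_t h
  have hz := h.2.2
  have h2' : IsRes v (2⁻¹ : K) (2⁻¹ : k) := isRes_inv (isRes_ofNat 2) two_ne_zero
  have r1 := isRes_div ((hs.pow 2).mul (hz.add ht)) (hz.mul (hz.add hs)) (mul_ne_zero f.z f.zs)
  have r2 := isRes_div ((ht.pow 2).mul (hz.add hs)) (hz.mul (hz.add ht)) (mul_ne_zero f.z f.zt)
  have r3 := isRes_div (hs.mul ht) hz f.z
  have r4 := isRes_div (hz.mul (hz.add ht)) (hz.add hs) f.zs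
  have r5 := isRes_div (hz.mul (hz.add hs)) (hz.add ht) f.zt
  have r6 := isRes_div (hs.mul (hz.add ht)) (hz.add hs) f.zs
  have r7 := isRes_div (ht.mul (hz.add hs)) (hz.add ht) f.zt
  have U : PRes v V.U V₀.U := h1
  have U' : PRes v V.U' V₀.U' := h2
  have Q : PRes v V.Q V₀.Q := h3
  have R : PRes v V.R V₀.R := h4
  have X4 : PRes v (X - 4 : K[X]) (X - 4 : k[X]) := pres_X.sub pres_four
  refine ⟨?_, ?_, ?_, ?_⟩
  · exact (((pres_C r1).mul U).add ((pres_C r2).mul U')).sub ((pres_C r3).mul (Q.add (X4.mul R)))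
  · exact (((pres_C r4).mul U).add ((pres_C r5).mul U')).sub ((pres_C hz).mul (Q.sub (X4.mul R)))
  · exact ((pres_C h.1).mul Q).sub (((pres_C h2').mul pres_X).mul
      (((pres_C r6).mul U).add ((pres_C r7).mul U')))
  · exact ((pres_C h.2.1).mul R).sub ((pres_C h2').mul
      (((pres_C r6).mul U).sub ((pres_C r7).mul U')))

/-- Existence of the factorisation. -/
theorem exists_chain' (l : List (ι' × K × K)) (c₀ : List (Ed ι k))
    (hl : List.Forall₂ (fun p (e : Ed ι k) => IsRes v p.2.1 e.b ∧ IsRes v p.2.2 e.κ) l c₀)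
    [Good K] : ∀ (V : V4 K)
    (_ : V.form = (l.map fun p => C (p.2.1 ^ 2) - C ((p.2.1 ^ 2 - p.2.2 ^ 2) / 4) * X).prod)
    (_ : V.Q.eval 0 = (l.map fun p => p.2.1).prod) (_ : V.Deg l.length)
    (_ : FineC c₀) (_ : V.Res v (vec c₀)),
    ∃ c : List (Ed ι' K), c.map Ed.lab = l ∧ vec c = V ∧ List.Forall₂ (Ed.Res v) c c₀ := by
  induction hl with
  | nil =>
    intro V _ hQ hd _ _
    obtain ⟨d1, d2, d3, d4⟩ := hd
    refine ⟨[], rfl, ?_, List.Forall₂.nil⟩
    have hQC : V.Q = C (V.Q.coeff 0) := by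
      ext m
      rw [coeff_C]
      split_ifs with h
      · rw [h]
      · exact d3 m (by simp; omega)
    apply V4.ext
    · ext m; exact (d1 m (by simp)).symm ▸ (coeff_zero m)
    · ext m; exact (d2 m (by simp)).symm ▸ (coeff_zero m)
    · rw [hQC] at hQ ⊢
      simp only [eval_C, List.map_nil, List.prod_nil] at hQ
      rw [hQ]
      rfl
    · ext m; exact (d4 m (by simp)).symm ▸ (coeff_zero m)
  | @cons p e₀ l c₀ hp _ ih =>
    intro V hV hQ hd hc hres
    have f := hc.1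
    obtain ⟨hpb, hpκ⟩ := hp
    -- the data
    obtain ⟨s, hs⟩ : ∃ s, s = (p.2.1 + p.2.2) / 2 := ⟨_, rfl⟩
    obtain ⟨t, ht⟩ : ∃ t, t = (p.2.1 - p.2.2) / 2 := ⟨_, rfl⟩
    have rs : IsRes v s e₀.s := by rw [hs]; exact half_res (hpb.add hpκ)
    have rt : IsRes v t e₀.t := by rw [ht]; exact half_res (hpb.sub hpκ)
    obtain ⟨w, hw⟩ : ∃ w, w = p.2.1 ^ 2 / (s * t) := ⟨_, rfl⟩
    have rw' : IsRes v w e₀.w := by
      rw [hw]
      exact isRes_div (hpb.pow 2) (rs.mul rt) (mul_ne_zero f.s f.t)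
    have rU := PRes.eval hres.2.1 rw'
    have rQ := PRes.eval hres.2.2.1 rw'
    have rR := PRes.eval hres.2.2.2 rw'
    obtain ⟨α, hα⟩ : ∃ α, α = s * (V.Q.eval w - p.2.1 * p.2.2 / (s * t) * V.R.eval w) := ⟨_, rfl⟩
    obtain ⟨β, hβ⟩ : ∃ β, β = p.2.1 * V.U'.eval w := ⟨_, rfl⟩
    obtain ⟨α₀, hα₀⟩ : ∃ α₀, α₀ = e₀.s * ((vec (e₀ :: c₀)).Q.eval e₀.w -
      e₀.b * e₀.κ / (e₀.s * e₀.t) * (vec (e₀ :: c₀)).R.eval e₀.w) := ⟨_, rfl⟩
    obtain ⟨β₀, hβ₀⟩ : ∃ β₀, β₀ = e₀.b * (vec (e₀ :: c₀)).U'.eval e₀.w := ⟨_, rfl⟩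
    have rα : IsRes v α α₀ := by
      rw [hα, hα₀]
      exact rs.mul (rQ.sub ((isRes_div (hpb.mul hpκ) (rs.mul rt) (mul_ne_zero f.s f.t)).mul rR))
    have rβ : IsRes v β β₀ := by
      rw [hβ, hβ₀]
      exact hpb.mul rU
    have ho : β₀ * (e₀.z + e₀.s) = α₀ * (e₀.z + e₀.t) := by
      rw [hβ₀, hα₀]
      exact outer f (vec c₀)
    have hβne : β₀ ≠ 0 := by rw [hβ₀]; exact mul_ne_zero f.b hc.2.2.2.1
    have hne : β₀ - α₀ ≠ 0 := by
      intro h0
      have h1 : β₀ * (e₀.s - e₀.t) = 0 := by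
        linear_combination ho - (e₀.z + e₀.t) * h0
      rw [s_sub_t] at h1
      exact (mul_ne_zero hβne f.κ) h1
    have hz₀ : (α₀ * e₀.t - β₀ * e₀.s) / (β₀ - α₀) = e₀.z := by
      rw [div_eq_iff hne]
      linear_combination -ho
    obtain ⟨z, hz⟩ : ∃ z, z = (α * t - β * s) / (β - α) := ⟨_, rfl⟩
    have rz : IsRes v z e₀.z := by
      rw [hz, ← hz₀]
      exact isRes_div ((rα.mul rt).sub (rβ.mul rs)) (rβ.sub rα) hne
    obtain ⟨e, he⟩ : ∃ e : Ed ι' K, e = ⟨p.1, p.2.1, p.2.2, z⟩ := ⟨_, rfl⟩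
    have er : Ed.Res v e e₀ := by
      rw [he]
      exact ⟨hpb, hpκ, rz⟩
    have ef : e.Fine := fine_res er f
    have es : e.s = s := by rw [he, hs]; rfl
    have et : e.t = t := by rw [he, ht]; rfl
    have eb : e.b = p.2.1 := by rw [he]
    have eκ : e.κ = p.2.2 := by rw [he]
    have ez : e.z = z := by rw [he]
    have ew : e.w = w := by
      rw [hw, ← es, ← et, ← eb]
      rfl
    have hfac : (C (e.b ^ 2) - C (e.s * e.t) * X : K[X]) =
        C (p.2.1 ^ 2) - C ((p.2.1 ^ 2 - p.2.2 ^ 2) / 4) * X := by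
      rw [← eb, ← eκ, ← s_add_t e, ← s_sub_t e]
      congr 3
      field_simp
      ring
    have hbw : e.b ^ 2 - e.s * e.t * e.w = 0 := by
      unfold Ed.w
      rw [mul_div_cancel₀ _ (mul_ne_zero ef.s ef.t), sub_self]
    have hform : V.form.eval e.w = 0 := by
      rw [hV, List.map_cons, List.prod_cons, ← hfac, eval_mul]
      simp only [eval_sub, eval_C, eval_mul, eval_X]
      rw [hbw, zero_mul]
    have hUne : V.U'.eval e.w ≠ 0 := by
      rw [ew]
      exact rU.ne_zero hc.2.2.2.1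
    have hβα : β - α ≠ 0 := (rβ.sub rα).ne_zero hne
    have hout : e.b * V.U'.eval e.w * (e.z + e.s) = e.s * (V.Q.eval e.w -
        e.b * e.κ / (e.s * e.t) * V.R.eval e.w) * (e.z + e.t) := by
      rw [ew, eb, eκ, ez, es, et, ← hβ, ← hα]
      have h1 : z * (β - α) = α * t - β * s := by rw [hz, div_mul_cancel₀ _ hβα]
      linear_combination h1
    obtain ⟨V₁, h1, h2⟩ := exists_quot ef hUne hform hout
    have hV₁ : V₁.form = (l.map fun p => C (p.2.1 ^ 2) - C ((p.2.1 ^ 2 - p.2.2 ^ 2) / 4) * X).prod := by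
      have h3 := form_act ef V₁
      rw [h2, hV, List.map_cons, List.prod_cons, ← hfac] at h3
      exact (mul_left_cancel₀ (fac_ne ef) h3).symm
    have hQ₁ : V₁.Q.eval 0 = (l.map fun p => p.2.1).prod := by
      have h3 := act_Q_eval e V₁ 0
      rw [h2, hQ, List.map_cons, List.prod_cons, mul_zero, zero_mul, add_zero, eb] at h3
      exact (mul_left_cancel₀ (by rw [← eb]; exact ef.b) h3).symm
    have hd₁ : V₁.Deg l.length := deg_quot ef h1 hd
    have hr₁ : V₁.Res v (vec c₀) := by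
      have h3 := inva_res er f hres
      rw [← h1] at h3
      have h4 : inva e₀ (vec (e₀ :: c₀)) = smu (C (e₀.b ^ 2) - C (e₀.s * e₀.t) * X) (vec c₀) :=
        inva_act f (vec c₀)
      rw [h4] at h3
      have ra : IsRes v (e.b ^ 2) (e₀.b ^ 2) := er.1.pow 2
      have rd : IsRes v (e.s * e.t) (e₀.s * e₀.t) := (res_s er).mul (res_t er)
      have hne' : e₀.b ^ 2 ≠ 0 := pow_ne_zero 2 f.b
      exact ⟨pres_div ra rd hne' h3.1, pres_div ra rd hne' h3.2.1, pres_div ra rd hne' h3.2.2.1,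
        pres_div ra rd hne' h3.2.2.2⟩
    obtain ⟨c, c1, c2, c3⟩ := ih V₁ hV₁ hQ₁ hd₁ hc.2.2.2.2 hr₁
    refine ⟨e :: c, ?_, ?_, List.Forall₂.cons er c3⟩
    · rw [List.map_cons, c1]
      congr 1
      rw [he]
      rfl
    · change act e (vec c) = V
      rw [c2, h2]

end places

section iface

variable {k : Type u} [Field k] [IsAlgClosed k] [Good k] {K : Type u} [Field K] [Algebra k K]
  {ι ι' : Type*}

/-- Existence of the factorisation over a function field, given a place with good value. -/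
theorem exists_chain (_hK : IsFunctionField k K) (v : Place k K) (V : V4 K)
    (l : List (ι' × K × K))
    (hV : V.form = (l.map fun p => C (p.2.1 ^ 2) - C ((p.2.1 ^ 2 - p.2.2 ^ 2) / 4) * X).prod)
    (hQ : V.Q.eval 0 = (l.map fun p => p.2.1).prod) (hd : V.Deg l.length) {c₀ : List (Ed ι k)}
    (hl : List.Forall₂ (fun p (e : Ed ι k) => IsRes v p.2.1 e.b ∧ IsRes v p.2.2 e.κ) l c₀)
    (hc : FineC c₀) (hres : V.Res v (vec c₀)) :
    ∃ c : List (Ed ι' K), c.map Ed.lab = l ∧ vec c = V ∧ List.Forall₂ (Ed.Res v) c c₀ := by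
  have hchar : CX.Good K := CX.Good.ext k
  exact exists_chain' l c₀ hl V hV hQ hd hc hres

end iface

end Pool.Agent.Helper15.VN

end CX
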