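import Mathlib
import Pool.Agent.Helper40.CX.H15VN.Res
import Pool.Agent.Helper40.CX.H15VN.Reach
import Pool.Agent.Helper40.CX.H26VC.Move
import Pool.Agent.Helper40.CX.Good2

namespace CX

/-!
# Good chains: the family, values at places, finiteness of the orbit
-/

set_option linter.unusedSectionVars false

namespace Pool.Agent.Helper15.VN

open Polynomial VC VF Pool.Agent.Helper83.VN

universe u

section algebra

variable {ι F : Type*} [Field F] [Good F]

lemma good_fine {c : List (Ed ι F)} (h : GoodC c) : FineC c := h c Relation.ReflTransGen.refl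

lemma good_reach {c c' : List (Ed ι F)} (h : GoodC c) (hr : Relation.ReflTransGen Adj c c') :
    GoodC c' := fun c'' h'' => h c'' (hr.trans h'')

lemma vec_reach {c c' : List (Ed ι F)} (h : GoodC c) (hr : Relation.ReflTransGen Adj c c') :
    vec c' = vec c := by
  induction hr with
  | refl => rfl
  | tail h1 h2 ih => rw [vec_adj h2 (h _ h1), ih]

lemma upc_reach {c c' : List (Ed ι F)} (h : GoodC c) (hr : Relation.ReflTransGen Adj c c') :
    upc c' = upc c := by
  induction hr with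
  | refl => rfl
  | tail h1 h2 ih => rw [upc_adj h2 (h _ h1), ih]

/-- A chain with four-vector in the torus orbit of that of `c` is in the family of `c`. -/
theorem fam_uniq {c d : List (Ed ι F)} (hc : FineC c) (hd : FineC d)
    (hl : d.map Ed.lab = c.map Ed.lab) {x : F} (hx : x ≠ 0) (hv : vec d = (vec c).tor x) :
    d = fam c x := by
  induction c generalizing d x with
  | nil =>
    cases d with
    | nil => rfl
    | cons e' d => simp at hl
  | cons e c ih =>
    cases d with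
    | nil => simp at hl
    | cons e' d =>
      rw [List.map_cons, List.map_cons, List.cons.injEq] at hl
      obtain ⟨h1, h2⟩ := hl
      have hi : e'.i = e.i := congrArg Prod.fst h1
      have hb : e'.b = e.b := congrArg (fun p => p.2.1) h1
      have hκ : e'.κ = e.κ := congrArg (fun p => p.2.2) h1
      have hs : e'.s = e.s := by unfold Ed.s; rw [hb, hκ]
      have ht : e'.t = e.t := by unfold Ed.t; rw [hb, hκ]
      have hw : e'.w = e.w := by unfold Ed.w; rw [hb, hs, ht]
      have f := hc.1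
      have f' := hd.1
      have o1 := outer f (vec c)
      have o2 := outer f' (vec d)
      change act e' (vec d) = (act e (vec c)).tor x at hv
      have hU := hc.2.2.2.1
      have q1 : (act e' (vec d)).U'.eval e'.w = x * (act e (vec c)).U'.eval e.w := by
        rw [hv, hw]; simp [V4.tor]
      have q2 : (act e' (vec d)).Q.eval e'.w = (act e (vec c)).Q.eval e.w := by
        rw [hv, hw]; rfl
      have q3 : (act e' (vec d)).R.eval e'.w = (act e (vec c)).R.eval e.w := by
        rw [hv, hw]; rfl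
      rw [q1, q2, q3, hb, hκ, hs, ht] at o2
      have o3 : e.b * (act e (vec c)).U'.eval e.w * ((e.z + e.s) * (e'.z + e.t) -
          x * ((e'.z + e.s) * (e.z + e.t))) = 0 := by
        linear_combination (e'.z + e.t) * o1 - (e.z + e.t) * o2
      have o4 := (mul_eq_zero.mp o3).resolve_left (mul_ne_zero f.b hU)
      have hden : (e.z + e.s) - (e.z + e.t) * x ≠ 0 := by
        intro h0
        have h3 : (e.z + e.s) * (e.s - e.t) = 0 := by
          linear_combination -o4 + (e'.z + e.s) * h0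
        rw [s_sub_t] at h3
        exact mul_ne_zero f.zs f.κ h3
      have hz : e'.z = e.z * dn e x := by
        rw [(dn_rel f.z hden).1, eq_div_iff hden]
        linear_combination o4
      have he : e' = ⟨e.i, e.b, e.κ, e.z * dn e x⟩ := Ed.ext hi hb hκ hz
      subst he
      have hy : dn e x ≠ 0 := right_ne_zero_of_mul f'.z
      rw [← act_fam f hx f'] at hv
      have h4 := ih hc.2.2.2.2 hd.2.2.2.2 h2 hy (act_inj f' hv)
      rw [h4]
      rfl

/-- The same move for a chain with the same labels. -/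
lemma adj_lab {c c' d : List (Ed ι F)} (h : Adj c c') (hl : d.map Ed.lab = c.map Ed.lab) :
    ∃ d', Adj d d' ∧ d'.map Ed.lab = c'.map Ed.lab := by
  induction h generalizing d with
  | swap e₂ e₁ c =>
    match d, hl with
    | [], hl => simp at hl
    | [_], hl => simp at hl
    | a :: b :: d, hl =>
      rw [List.map_cons, List.map_cons, List.map_cons, List.map_cons, List.cons.injEq,
        List.cons.injEq] at hl
      obtain ⟨h1, h2, h3⟩ := hl
      refine ⟨_, Adj.swap a b d, ?_⟩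
      rw [List.map_cons, List.map_cons, List.map_cons, List.map_cons, h3]
      change b.lab :: a.lab :: _ = e₁.lab :: e₂.lab :: _
      rw [h1, h2]
  | flip e =>
    match d, hl with
    | [], hl => simp at hl
    | [a], hl =>
      rw [List.map_cons, List.map_cons, List.cons.injEq] at hl
      refine ⟨_, Adj.flip a, ?_⟩
      have h1 := hl.1
      change [(a.lab.1, a.lab.2.1, -a.lab.2.2)] = [(e.lab.1, e.lab.2.1, -e.lab.2.2)]
      rw [h1]
    | _ :: _ :: _, hl => simp at hl
  | cons e _ ih =>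
    match d, hl with
    | [], hl => simp at hl
    | a :: d, hl =>
      rw [List.map_cons, List.map_cons, List.cons.injEq] at hl
      obtain ⟨d', h1, h2⟩ := ih hl.2
      exact ⟨a :: d', Adj.cons a h1, by rw [List.map_cons, List.map_cons, h2, hl.1]⟩

lemma fam_lab (c : List (Ed ι F)) (x : F) : (fam c x).map Ed.lab = c.map Ed.lab := by
  induction c generalizing x with
  | nil => rfl
  | cons e c ih =>
    change _ :: (fam c (dn e x)).map Ed.lab = _
    rw [ih]
    rfl

lemma adj_nil {c : List (Ed ι F)} (h : Relation.ReflTransGen Adj [] c) : c = [] := by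
  induction h with
  | refl => rfl
  | tail _ h ih => subst ih; cases h

lemma fam_ne {c : List (Ed ι F)} (h0 : c ≠ []) {x : F} (hc : FineC c) (h : FineC (fam c x)) :
    x ≠ 0 := by
  cases c with
  | nil => exact absurd rfl h0
  | cons e c =>
    rintro rfl
    have f := hc.1
    have f' : (⟨e.i, e.b, e.κ, e.z * dn e 0⟩ : Ed ι F).Fine := h.1
    apply f'.zt
    change e.z * dn e 0 + e.t = 0
    unfold dn
    have := f.zs
    have := f.z
    simp only [mul_zero, zero_sub, sub_zero]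
    field_simp
    ring

/-- Moves commute with the torus. -/
theorem reach_fam {c c' : List (Ed ι F)} {x : F} (hc : GoodC c) (h : GoodC (fam c x))
    (hr : Relation.ReflTransGen Adj c c') :
    Relation.ReflTransGen Adj (fam c x) (fam c' x) := by
  by_cases h0 : c = []
  · subst h0
    rw [adj_nil hr]
  have hx : x ≠ 0 := fam_ne h0 (good_fine hc) (good_fine h)
  induction hr with
  | refl => exact Relation.ReflTransGen.refl
  | @tail c₁ c₂ h1 h2 ih =>
    obtain ⟨d, h3, h4⟩ := adj_lab h2 (fam_lab c₁ x)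
    have f1 := hc c₁ h1
    have f2 := hc c₂ (h1.tail h2)
    have g1 := h _ ih
    have g2 := h _ (ih.tail h3)
    have e1 : vec d = (vec c₂).tor x := by
      rw [vec_adj h3 g1, vec_fam f1 hx g1, vec_adj h2 f1]
    have e2 := fam_uniq f2 g2 h4 hx e1
    rw [← e2]
    exact ih.tail h3

/-- The orbit of a good chain is finite. -/
lemma orbit_finite {c : List (Ed ι F)} (h : GoodC c) :
    {c' | Relation.ReflTransGen Adj c c'}.Finite := by
  have h1 : ∀ l : List (ι × F × F), {l' | List.Forall₂ (fun p q : ι × F × F => q.1 = p.1 ∧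
      q.2.1 = p.2.1 ∧ (q.2.2 = p.2.2 ∨ q.2.2 = -p.2.2)) l l'}.Finite := by
    intro l
    induction l with
    | nil =>
      refine (Set.finite_singleton []).subset fun l' hl' => ?_
      rw [Set.mem_setOf_eq] at hl'
      cases hl'
      rfl
    | cons p l ih =>
      refine ((ih.image (fun l' => p :: l')).union
        (ih.image (fun l' => (p.1, p.2.1, -p.2.2) :: l'))).subset fun l' hl' => ?_
      rw [Set.mem_setOf_eq] at hl'
      cases hl' with
      | @cons _ q _ l'' h h' =>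
        obtain ⟨h1, h2, h3⟩ := h
        rcases h3 with h3 | h3
        · left
          exact ⟨l'', h', by rw [show q = p from Prod.ext h1 (Prod.ext h2 h3)]⟩
        · right
          exact ⟨l'', h', by
            rw [show q = (p.1, p.2.1, -p.2.2) from Prod.ext h1 (Prod.ext h2 h3)]⟩
  have h2 : ∀ l : List (ι × F × F), {l' | SgnPerm l l'}.Finite := by
    intro l
    have h3 : {l'' : List (ι × F × F) | l''.Perm l}.Finite := by
      refine (List.finite_toSet l.permutations).subset fun l'' hl'' => ?_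
      exact List.mem_permutations.mpr hl''
    refine (h3.biUnion fun l'' _ => h1 l'').subset fun l' hl' => ?_
    obtain ⟨l'', h4, h5⟩ := hl'
    exact Set.mem_biUnion h4 h5
  have h3 : ((fun c' : List (Ed ι F) => c'.map Ed.lab) ''
      {c' | Relation.ReflTransGen Adj c c'}).Finite := by
    refine (h2 (c.map Ed.lab)).subset ?_
    rintro _ ⟨c', hc', rfl⟩
    exact reach_sgn hc'
  refine Set.Finite.of_finite_image h3 ?_
  intro c₁ h₁ c₂ h₂ h₁₂
  exact uniq (h _ h₁) (h _ h₂) h₁₂ ((vec_reach h h₁).trans (vec_reach h h₂).symm)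

end algebra

section places

variable {k : Type u} [Field k] [Good k] {K : Type u} [Field K] [Algebra k K]
  {v : Place k K} {ι ι' : Type*}

lemma swz_res {e e' : Ed ι' K} {e₀ e₀' : Ed ι k} (h : Ed.Res v e e₀) (h' : Ed.Res v e' e₀')
    (hn : Nb e₀ e₀') : IsRes v (swz₁ e e') (swz₁ e₀ e₀') ∧ IsRes v (swz₂ e e') (swz₂ e₀ e₀') := by
  obtain ⟨h1, h2, h3, h4⟩ := nb_res h h'
  exact ⟨isRes_div (((res_t h').mul h.2.2).mul h2) h1 hn.1,
    isRes_div (((res_t h).mul h'.2.2).mul h4) h3 hn.2.2.1⟩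

lemma flip_res {e : Ed ι' K} {e₀ : Ed ι k} (h : Ed.Res v e e₀) (f : e₀.Fine) :
    Ed.Res v (⟨e.i, e.b, -e.κ, e.s * e.t / e.z⟩ : Ed ι' K)
      (⟨e₀.i, e₀.b, -e₀.κ, e₀.s * e₀.t / e₀.z⟩ : Ed ι k) :=
  ⟨h.1, h.2.1.neg, isRes_div ((res_s h).mul (res_t h)) h.2.2 f.z⟩

/-- A move of the value comes from a move. -/
lemma lift_adj {c₀ c₀' : List (Ed ι k)} (h : Adj c₀ c₀') {c : List (Ed ι' K)}
    (hr : List.Forall₂ (Ed.Res v) c c₀) (hf : FineC c₀) :
    ∃ c', Adj c c' ∧ List.Forall₂ (Ed.Res v) c' c₀' := by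
  induction h generalizing c with
  | swap e₂ e₁ c₀ =>
    cases hr with
    | cons h2 hr =>
      cases hr with
      | cons h1 hr =>
        obtain ⟨r1, r2⟩ := swz_res h2 h1 (hf.2.2.1 e₁ (by simp))
        exact ⟨_, Adj.swap _ _ _, List.Forall₂.cons ⟨h1.1, h1.2.1, r1⟩
          (List.Forall₂.cons ⟨h2.1, h2.2.1, r2⟩ hr)⟩
  | flip e₀ =>
    cases hr with
    | cons h hr =>
      cases hr
      exact ⟨_, Adj.flip _, List.Forall₂.cons (flip_res h hf.1) List.Forall₂.nil⟩
  | cons e₀ _ ih =>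
    cases hr with
    | cons h hr =>
      obtain ⟨c', h1, h2⟩ := ih hr hf.2.2.2.2
      exact ⟨_, Adj.cons _ h1, List.Forall₂.cons h h2⟩

/-- A move induces a move of the value. -/
lemma drop_adj {c c' : List (Ed ι' K)} (h : Adj c c') {c₀ : List (Ed ι k)}
    (hr : List.Forall₂ (Ed.Res v) c c₀) (hf : FineC c₀) :
    ∃ c₀', Adj c₀ c₀' ∧ List.Forall₂ (Ed.Res v) c' c₀' := by
  induction h generalizing c₀ with
  | swap e₂ e₁ c =>
    cases hr with
    | cons h2 hr =>
      cases hr with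
      | cons h1 hr =>
        obtain ⟨r1, r2⟩ := swz_res h2 h1 (hf.2.2.1 _ (by simp))
        exact ⟨_, Adj.swap _ _ _, List.Forall₂.cons ⟨h1.1, h1.2.1, r1⟩
          (List.Forall₂.cons ⟨h2.1, h2.2.1, r2⟩ hr)⟩
  | flip e =>
    cases hr with
    | cons h hr =>
      cases hr
      exact ⟨_, Adj.flip _, List.Forall₂.cons (flip_res h hf.1) List.Forall₂.nil⟩
  | cons e _ ih =>
    cases hr with
    | cons h hr =>
      obtain ⟨c₀', h1, h2⟩ := ih hr hf.2.2.2.2
      exact ⟨_, Adj.cons _ h1, List.Forall₂.cons h h2⟩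

/-- A chain with good value is good. -/
theorem good_of_res {c : List (Ed ι' K)} {c₀ : List (Ed ι k)}
    (hr : List.Forall₂ (Ed.Res v) c c₀) (h : GoodC c₀) : GoodC c := by
  have key : ∀ c', Relation.ReflTransGen Adj c c' →
      ∃ c₀', Relation.ReflTransGen Adj c₀ c₀' ∧ List.Forall₂ (Ed.Res v) c' c₀' := by
    intro c' hc'
    induction hc' with
    | refl => exact ⟨c₀, Relation.ReflTransGen.refl, hr⟩
    | tail _ h2 ih =>
      obtain ⟨c₁, h3, h4⟩ := ih
      obtain ⟨c₂, h5, h6⟩ := drop_adj h2 h4 (h _ h3)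
      exact ⟨c₂, h3.tail h5, h6⟩
  intro c' hc'
  obtain ⟨c₀', h1, h2⟩ := key c' hc'
  exact fine_of_res' h2 (h _ h1)

end places

section spread

variable {k : Type u} [Field k] [IsAlgClosed k] [Good k] {K : Type u} [Field K] [Algebra k K]
  {ι ι' : Type*}

/-- The values of a nonzero element are nonzero at almost all places. -/
lemma spread_one (hK : IsFunctionField k K) {f : K} (hf : f ≠ 0) :
    ∃ T : Set (Place k K), T.Finite ∧ ∀ v, v ∉ T → ∀ c, IsRes v f c → c ≠ 0 := by
  refine ⟨_, finite_support_ord hK hf, fun v hv c hc h0 => ?_⟩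
  rw [h0, isRes_zero_iff] at hc
  apply hv
  rw [Set.mem_setOf_eq]
  exact ((ord_pos_iff hK v hf).mpr hc).ne'

lemma spread_fine1 (hK : IsFunctionField k K) {e : Ed ι' K} (f : e.Fine) :
    ∃ T : Set (Place k K), T.Finite ∧ ∀ v, v ∉ T → ∀ e₀ : Ed ι k, Ed.Res v e e₀ → e₀.Fine := by
  obtain ⟨T1, F1, h1⟩ := spread_one hK f.b
  obtain ⟨T2, F2, h2⟩ := spread_one hK f.κ
  obtain ⟨T3, F3, h3⟩ := spread_one hK f.s
  obtain ⟨T4, F4, h4⟩ := spread_one hK f.t
  obtain ⟨T5, F5, h5⟩ := spread_one hK f.z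
  obtain ⟨T6, F6, h6⟩ := spread_one hK f.zs
  obtain ⟨T7, F7, h7⟩ := spread_one hK f.zt
  refine ⟨T1 ∪ T2 ∪ T3 ∪ T4 ∪ T5 ∪ T6 ∪ T7,
    (((((F1.union F2).union F3).union F4).union F5).union F6).union F7, fun v hv e₀ h => ?_⟩
  simp only [Set.mem_union, not_or] at hv
  obtain ⟨⟨⟨⟨⟨⟨v1, v2⟩, v3⟩, v4⟩, v5⟩, v6⟩, v7⟩ := hv
  exact ⟨h1 v v1 _ h.1, h2 v v2 _ h.2.1, h3 v v3 _ (res_s h), h4 v v4 _ (res_t h),
    h5 v v5 _ h.2.2, h6 v v6 _ (h.2.2.add (res_s h)), h7 v v7 _ (h.2.2.add (res_t h))⟩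

lemma spread_w (hK : IsFunctionField k K) {e : Ed ι' K} (f : e.Fine) {c : List (Ed ι' K)}
    (hc : FineC c) (h : ∀ e' ∈ c, e'.w ≠ e.w) :
    ∃ T : Set (Place k K), T.Finite ∧ ∀ v, v ∉ T → ∀ (e₀ : Ed ι k) (c₀ : List (Ed ι k)),
      Ed.Res v e e₀ → List.Forall₂ (Ed.Res v) c c₀ → e₀.Fine → FineC c₀ →
        ∀ e₀' ∈ c₀, e₀'.w ≠ e₀.w := by
  induction c with
  | nil =>
    refine ⟨∅, Set.finite_empty, fun v _ e₀ c₀ _ h _ _ e₀' he => ?_⟩
    cases h
    simp at he
  | cons e' c ih =>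
    obtain ⟨T1, F1, h1⟩ := ih hc.2.2.2.2 (fun e'' h'' => h e'' (List.mem_cons_of_mem _ h''))
    obtain ⟨T2, F2, h2⟩ := spread_one hK (sub_ne_zero.mpr (h e' List.mem_cons_self))
    refine ⟨T1 ∪ T2, F1.union F2, fun v hv e₀ c₀ r hr f₀ hf₀ e₀' he => ?_⟩
    rw [Set.mem_union, not_or] at hv
    cases hr with
    | @cons _ e₁ _ c₁ r' hr =>
      rcases List.mem_cons.mp he with rfl | he
      · have h3 := h2 v hv.2 _ ((res_w r' hf₀.1).sub (res_w r f₀))
        exact sub_ne_zero.mp h3
      · exact h1 v hv.1 e₀ c₁ r hr f₀ hf₀.2.2.2.2 e₀' he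

/-- The values of a nondegenerate chain are nondegenerate at almost all places. -/
theorem spread_fine (hK : IsFunctionField k K) {c : List (Ed ι' K)} (hc : FineC c) :
    ∃ T : Set (Place k K), T.Finite ∧ ∀ v, v ∉ T → ∀ c₀ : List (Ed ι k),
      List.Forall₂ (Ed.Res v) c c₀ → FineC c₀ := by
  induction c with
  | nil =>
    refine ⟨∅, Set.finite_empty, fun v _ c₀ h => ?_⟩
    cases h
    trivial
  | cons e c ih =>
    obtain ⟨T1, F1, h1⟩ := ih hc.2.2.2.2
    obtain ⟨T2, F2, h2⟩ := spread_fine1 (ι := ι) hK hc.1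
    obtain ⟨T3, F3, h3⟩ := spread_w (ι := ι) hK hc.1 hc.2.2.2.2 hc.2.1
    obtain ⟨T4, F4, h4⟩ := spread_one hK hc.2.2.2.1
    obtain ⟨T5, F5, h5⟩ : ∃ T : Set (Place k K), T.Finite ∧ ∀ v, v ∉ T →
        ∀ (e₀ : Ed ι k) (c₀ : List (Ed ι k)), Ed.Res v e e₀ → List.Forall₂ (Ed.Res v) c c₀ →
          ∀ e₀' ∈ c₀.head?, Nb e₀ e₀' := by
      cases c with
      | nil =>
        refine ⟨∅, Set.finite_empty, fun v _ e₀ c₀ _ h e₀' he => ?_⟩
        cases h
        simp at he
      | cons e' c =>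
        have hn := hc.2.2.1 e' (by simp)
        obtain ⟨S1, G1, g1⟩ := spread_one hK hn.1
        obtain ⟨S2, G2, g2⟩ := spread_one hK hn.2.1
        obtain ⟨S3, G3, g3⟩ := spread_one hK hn.2.2.1
        obtain ⟨S4, G4, g4⟩ := spread_one hK hn.2.2.2
        refine ⟨S1 ∪ S2 ∪ S3 ∪ S4, ((G1.union G2).union G3).union G4,
          fun v hv e₀ c₀ r hr e₀' he => ?_⟩
        simp only [Set.mem_union, not_or] at hv
        obtain ⟨⟨⟨v1, v2⟩, v3⟩, v4⟩ := hv
        cases hr with
        | cons r' hr =>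
          rw [List.head?_cons, Option.mem_some_iff] at he
          subst he
          obtain ⟨n1, n2, n3, n4⟩ := nb_res r r'
          exact ⟨g1 v v1 _ n1, g2 v v2 _ n2, g3 v v3 _ n3, g4 v v4 _ n4⟩
    refine ⟨T1 ∪ T2 ∪ T3 ∪ T4 ∪ T5, (((F1.union F2).union F3).union F4).union F5,
      fun v hv c₀ hr => ?_⟩
    simp only [Set.mem_union, not_or] at hv
    obtain ⟨⟨⟨⟨v1, v2⟩, v3⟩, v4⟩, v5⟩ := hv
    cases hr with
    | @cons _ e₀ _ c₁ r hr =>
      have a1 := h1 v v1 c₁ hr
      have a2 := h2 v v2 e₀ r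
      refine ⟨a2, h3 v v3 e₀ c₁ r hr a2 a1, h5 v v5 e₀ c₁ r hr, ?_, a1⟩
      exact h4 v v4 _ (PRes.eval (act_res r a2 (vec_res' hr a1)).2.1 (res_w r a2))

/-- The values of a good chain are good at almost all places. -/
theorem spread_good (hK : IsFunctionField k K) {c : List (Ed ι' K)} (hc : GoodC c) :
    ∃ T : Set (Place k K), T.Finite ∧ ∀ v, v ∉ T → ∀ c₀ : List (Ed ι k),
      List.Forall₂ (Ed.Res v) c c₀ → GoodC c₀ := by
  have hchar : CX.Good K := CX.Good.ext k
  have h1 : ∀ c' : List (Ed ι' K), ∃ T : Set (Place k K), T.Finite ∧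
      (Relation.ReflTransGen Adj c c' → ∀ v, v ∉ T → ∀ c₀ : List (Ed ι k),
      List.Forall₂ (Ed.Res v) c' c₀ → FineC c₀) := by
    intro c'
    by_cases h : Relation.ReflTransGen Adj c c'
    · obtain ⟨T, F, hT⟩ := spread_fine (ι := ι) hK (hc c' h)
      exact ⟨T, F, fun _ => hT⟩
    · exact ⟨∅, Set.finite_empty, fun h' => absurd h' h⟩
  choose T F hT using h1
  refine ⟨⋃ c' ∈ {c' | Relation.ReflTransGen Adj c c'}, T c',
    (orbit_finite hc).biUnion fun c' _ => F c', fun v hv c₀ hr => ?_⟩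
  have hv' : ∀ c', Relation.ReflTransGen Adj c c' → v ∉ T c' := by
    intro c' hc' h
    exact hv (Set.mem_biUnion hc' h)
  have key : ∀ c₀', Relation.ReflTransGen Adj c₀ c₀' →
      ∃ c', Relation.ReflTransGen Adj c c' ∧ List.Forall₂ (Ed.Res v) c' c₀' := by
    intro c₀' h
    induction h with
    | refl => exact ⟨c, Relation.ReflTransGen.refl, hr⟩
    | tail _ h2 ih =>
      obtain ⟨c₁, h3, h4⟩ := ih
      obtain ⟨c₂, h5, h6⟩ := lift_adj h2 h4 (hT c₁ h3 v (hv' c₁ h3) _ h4)
      exact ⟨c₂, h3.tail h5, h6⟩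
  intro c₀' h
  obtain ⟨c', h3, h4⟩ := key c₀' h
  exact hT c' h3 v (hv' c' h3) _ h4

end spread

end Pool.Agent.Helper15.VN

end CX
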