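import Mathlib
import Pool.Agent.Helper40.CX.H15VN.Good
import Pool.Agent.Helper40.CX.H83VF.Fields
import Pool.Agent.Helper40.CX.Good2

namespace CX

/-!
# Existence of good chains: the line and the torus orbit
-/

set_option linter.unusedSectionVars false

namespace Pool.Agent.Helper15.VN

open Polynomial VC VF Pool.Agent.Helper83.VN

universe u

section inf

variable {k : Type u} [Field k] {K : Type u} [Field K] [Algebra k K]
  {v : Place k K} {ι ι' : Type*}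

/-- The element `z` has a zero or a pole at the place. -/
def Ext (v : Place k K) (z : K) : Prop := z ≠ 0 ∧ (IsRes v z 0 ∨ IsRes v z⁻¹ 0)

lemma ext_inv {z : K} (h : Ext v z) : Ext v z⁻¹ := by
  refine ⟨inv_ne_zero h.1, ?_⟩
  rw [inv_inv]
  exact h.2.symm

lemma ext_unit {z u : K} {u₀ : k} (h : Ext v z) (hu : IsRes v u u₀) (h0 : u₀ ≠ 0) :
    Ext v (u * z) := by
  refine ⟨mul_ne_zero (hu.ne_zero h0) h.1, ?_⟩
  rcases h.2 with h | h
  · left
    have := hu.mul h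
    rwa [mul_zero] at this
  · right
    have := (isRes_inv hu h0).mul h
    rw [mul_zero] at this
    rwa [mul_inv]

lemma ext_pair {z : K} (h : Ext v z) : ∃ (m : K) (p q : k), m ≠ 0 ∧ IsRes v (z / m) p ∧
    IsRes v (1 / m) q ∧ ((p = 1 ∧ q = 0) ∨ (p = 0 ∧ q = 1)) := by
  rcases h.2 with h' | h'
  · exact ⟨1, 0, 1, one_ne_zero, by rwa [div_one], by rw [div_one]; exact isRes_one,
      Or.inr ⟨rfl, rfl⟩⟩
  · exact ⟨z, 1, 0, h.1, by rw [div_self h.1]; exact isRes_one, by rwa [one_div],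
      Or.inl ⟨rfl, rfl⟩⟩

variable [Good k]

/-- The edge has constants with good values and a coordinate with a zero or a pole. -/
def Ge (v : Place k K) (e : Ed ι K) : Prop := ∃ b κ : k, IsRes v e.b b ∧ IsRes v e.κ κ ∧ b ≠ 0 ∧
  κ ≠ 0 ∧ (b + κ) / 2 ≠ 0 ∧ (b - κ) / 2 ≠ 0 ∧ Ext v e.z

lemma ge_fine {e : Ed ι K} (h : Ge v e) : e.Fine := by
  obtain ⟨b, κ, hb, hκ, b0, κ0, s0, t0, hz⟩ := h
  have rs : IsRes v e.s ((b + κ) / 2) := half_res (hb.add hκ)
  have rt : IsRes v e.t ((b - κ) / 2) := half_res (hb.sub hκ)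
  obtain ⟨m, p, q, hm, hp, hq, hpq⟩ := ext_pair hz
  refine ⟨hb.ne_zero b0, hκ.ne_zero κ0, rs.ne_zero s0, rt.ne_zero t0, hz.1, ?_, ?_⟩
  · intro h0
    have h1 := hp.add (rs.mul hq)
    rw [show e.z / m + e.s * (1 / m) = 0 by rw [mul_one_div, ← add_div, h0, zero_div]] at h1
    have h2 := h1.unique isRes_zero
    rcases hpq with ⟨rfl, rfl⟩ | ⟨rfl, rfl⟩
    · simp at h2
    · simp only [mul_one, zero_add] at h2
      exact s0 h2
  · intro h0
    have h1 := hp.add (rt.mul hq)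
    rw [show e.z / m + e.t * (1 / m) = 0 by rw [mul_one_div, ← add_div, h0, zero_div]] at h1
    have h2 := h1.unique isRes_zero
    rcases hpq with ⟨rfl, rfl⟩ | ⟨rfl, rfl⟩
    · simp at h2
    · simp only [mul_one, zero_add] at h2
      exact t0 h2

/-- The numerators and denominators of the exchange, up to a common factor. -/
lemma ge_nb {e₂ e₁ : Ed ι K} (h₂ : Ge v e₂) (h₁ : Ge v e₁) : ∃ M : K, M ≠ 0 ∧
    (∃ x : k, x ≠ 0 ∧ IsRes v (dA e₂ e₁ / M) x) ∧ (∃ x : k, x ≠ 0 ∧ IsRes v (nA e₂ e₁ / M) x) ∧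
    (∃ x : k, x ≠ 0 ∧ IsRes v (dB e₂ e₁ / M) x) ∧ (∃ x : k, x ≠ 0 ∧ IsRes v (nB e₂ e₁ / M) x) := by
  obtain ⟨b₁, κ₁, hb₁, hκ₁, b0₁, κ0₁, s0₁, t0₁, hz₁⟩ := h₁
  obtain ⟨b₂, κ₂, hb₂, hκ₂, b0₂, κ0₂, s0₂, t0₂, hz₂⟩ := h₂
  have rs₁ : IsRes v e₁.s ((b₁ + κ₁) / 2) := half_res (hb₁.add hκ₁)
  have rt₁ : IsRes v e₁.t ((b₁ - κ₁) / 2) := half_res (hb₁.sub hκ₁)
  have rs₂ : IsRes v e₂.s ((b₂ + κ₂) / 2) := half_res (hb₂.add hκ₂)
  have rt₂ : IsRes v e₂.t ((b₂ - κ₂) / 2) := half_res (hb₂.sub hκ₂)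
  obtain ⟨m₁, p₁, q₁, hm₁, hp₁, hq₁, hpq₁⟩ := ext_pair hz₁
  obtain ⟨m₂, p₂, q₂, hm₂, hp₂, hq₂, hpq₂⟩ := ext_pair hz₂
  set S₁ := (b₁ + κ₁) / 2
  set T₁ := (b₁ - κ₁) / 2
  set S₂ := (b₂ + κ₂) / 2
  set T₂ := (b₂ - κ₂) / 2
  have rdA : IsRes v (dA e₂ e₁ / (m₁ * m₂))
      (T₂ * p₁ * p₂ + S₂ * T₂ * p₁ * q₂ + S₂ * T₁ * q₁ * p₂ + S₂ * T₁ * T₂ * q₁ * q₂) := by
    have h := ((((rt₂.mul hp₁).mul hp₂).add (((rs₂.mul rt₂).mul hp₁).mul hq₂)).add
      (((rs₂.mul rt₁).mul hq₁).mul hp₂)).add ((((rs₂.mul rt₁).mul rt₂).mul hq₁).mul hq₂)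
    convert h using 1
    unfold dA
    field_simp
  have rnA : IsRes v (nA e₂ e₁ / (m₁ * m₂))
      (p₁ * p₂ + S₂ * p₁ * q₂ + S₁ * q₁ * p₂ + S₁ * T₂ * q₁ * q₂) := by
    have h := (((hp₁.mul hp₂).add ((rs₂.mul hp₁).mul hq₂)).add
      ((rs₁.mul hq₁).mul hp₂)).add (((rs₁.mul rt₂).mul hq₁).mul hq₂)
    convert h using 1
    unfold nA
    field_simp
  have rdB : IsRes v (dB e₂ e₁ / (m₁ * m₂))
      (T₁ * p₁ * p₂ + S₁ * T₁ * q₁ * p₂ + S₁ * T₂ * p₁ * q₂ + S₁ * T₁ * T₂ * q₁ * q₂) := by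
    have h := ((((rt₁.mul hp₁).mul hp₂).add (((rs₁.mul rt₁).mul hq₁).mul hp₂)).add
      (((rs₁.mul rt₂).mul hp₁).mul hq₂)).add ((((rs₁.mul rt₁).mul rt₂).mul hq₁).mul hq₂)
    convert h using 1
    unfold dB
    field_simp
  have rnB : IsRes v (nB e₂ e₁ / (m₁ * m₂))
      (p₁ * p₂ + S₁ * q₁ * p₂ + S₂ * p₁ * q₂ + S₂ * T₁ * q₁ * q₂) := by
    have h := (((hp₁.mul hp₂).add ((rs₁.mul hq₁).mul hp₂)).add
      ((rs₂.mul hp₁).mul hq₂)).add (((rs₂.mul rt₁).mul hq₁).mul hq₂)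
    convert h using 1
    unfold nB
    field_simp
  refine ⟨m₁ * m₂, mul_ne_zero hm₁ hm₂, ⟨_, ?_, rdA⟩, ⟨_, ?_, rnA⟩, ⟨_, ?_, rdB⟩, ⟨_, ?_, rnB⟩⟩
  · rcases hpq₁ with ⟨rfl, rfl⟩ | ⟨rfl, rfl⟩ <;> rcases hpq₂ with ⟨rfl, rfl⟩ | ⟨rfl, rfl⟩ <;>
      simp only [mul_one, mul_zero, zero_add, add_zero] <;>
      simp [s0₁, t0₁, s0₂, t0₂]
  · rcases hpq₁ with ⟨rfl, rfl⟩ | ⟨rfl, rfl⟩ <;> rcases hpq₂ with ⟨rfl, rfl⟩ | ⟨rfl, rfl⟩ <;>
      simp only [mul_one, mul_zero, zero_add, add_zero] <;>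
      simp [s0₁, t0₁, s0₂, t0₂]
  · rcases hpq₁ with ⟨rfl, rfl⟩ | ⟨rfl, rfl⟩ <;> rcases hpq₂ with ⟨rfl, rfl⟩ | ⟨rfl, rfl⟩ <;>
      simp only [mul_one, mul_zero, zero_add, add_zero] <;>
      simp [s0₁, t0₁, s0₂, t0₂]
  · rcases hpq₁ with ⟨rfl, rfl⟩ | ⟨rfl, rfl⟩ <;> rcases hpq₂ with ⟨rfl, rfl⟩ | ⟨rfl, rfl⟩ <;>
      simp only [mul_one, mul_zero, zero_add, add_zero] <;>
      simp [s0₁, t0₁, s0₂, t0₂]

lemma ge_Nb {e₂ e₁ : Ed ι K} (h₂ : Ge v e₂) (h₁ : Ge v e₁) : Nb e₂ e₁ := by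
  obtain ⟨M, hM, ⟨x1, n1, r1⟩, ⟨x2, n2, r2⟩, ⟨x3, n3, r3⟩, ⟨x4, n4, r4⟩⟩ := ge_nb h₂ h₁
  refine ⟨?_, ?_, ?_, ?_⟩
  · intro h; rw [h, zero_div] at r1; exact n1 (r1.unique isRes_zero)
  · intro h; rw [h, zero_div] at r2; exact n2 (r2.unique isRes_zero)
  · intro h; rw [h, zero_div] at r3; exact n3 (r3.unique isRes_zero)
  · intro h; rw [h, zero_div] at r4; exact n4 (r4.unique isRes_zero)

lemma unit_quot {x y M : K} {a b : k} (hM : M ≠ 0) (hx : IsRes v (x / M) a) (hy : IsRes v (y / M) b)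
    (hb : b ≠ 0) : IsRes v (x / y) (a / b) := by
  have h := isRes_div hx hy hb
  rwa [div_div_div_cancel_right₀ hM] at h

lemma ge_swap {e₂ e₁ : Ed ι K} (h₂ : Ge v e₂) (h₁ : Ge v e₁) :
    Ge v (⟨e₁.i, e₁.b, e₁.κ, swz₁ e₂ e₁⟩ : Ed ι K) ∧
    Ge v (⟨e₂.i, e₂.b, e₂.κ, swz₂ e₂ e₁⟩ : Ed ι K) := by
  obtain ⟨M, hM, ⟨x1, n1, r1⟩, ⟨x2, n2, r2⟩, ⟨x3, n3, r3⟩, ⟨x4, n4, r4⟩⟩ := ge_nb h₂ h₁
  obtain ⟨b₁, κ₁, hb₁, hκ₁, b0₁, κ0₁, s0₁, t0₁, hz₁⟩ := h₁
  obtain ⟨b₂, κ₂, hb₂, hκ₂, b0₂, κ0₂, s0₂, t0₂, hz₂⟩ := h₂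
  have rt₁ : IsRes v e₁.t ((b₁ - κ₁) / 2) := half_res (hb₁.sub hκ₁)
  have rt₂ : IsRes v e₂.t ((b₂ - κ₂) / 2) := half_res (hb₂.sub hκ₂)
  refine ⟨⟨b₁, κ₁, hb₁, hκ₁, b0₁, κ0₁, s0₁, t0₁, ?_⟩, ⟨b₂, κ₂, hb₂, hκ₂, b0₂, κ0₂, s0₂, t0₂, ?_⟩⟩
  · have h := ext_unit hz₂ (rt₁.mul (unit_quot hM r2 r1 n1)) (mul_ne_zero t0₁ (div_ne_zero n2 n1))
    convert h using 1
    change swz₁ e₂ e₁ = _
    unfold swz₁
    ring
  · have h := ext_unit hz₁ (rt₂.mul (unit_quot hM r4 r3 n3)) (mul_ne_zero t0₂ (div_ne_zero n4 n3))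
    convert h using 1
    change swz₂ e₂ e₁ = _
    unfold swz₂
    ring

lemma ge_flip {e : Ed ι K} (h : Ge v e) :
    Ge v (⟨e.i, e.b, -e.κ, e.s * e.t / e.z⟩ : Ed ι K) := by
  obtain ⟨b, κ, hb, hκ, b0, κ0, s0, t0, hz⟩ := h
  have rs : IsRes v e.s ((b + κ) / 2) := half_res (hb.add hκ)
  have rt : IsRes v e.t ((b - κ) / 2) := half_res (hb.sub hκ)
  refine ⟨b, -κ, hb, hκ.neg, b0, neg_ne_zero.mpr κ0, by rwa [← sub_eq_add_neg], by rwa [sub_neg_eq_add],
    ?_⟩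
  change Ext v (e.s * e.t / e.z)
  rw [div_eq_mul_inv]
  exact ext_unit (ext_inv hz) (rs.mul rt) (mul_ne_zero s0 t0)

lemma adj_w {c c' : List (Ed ι K)} (h : Adj c c') : (c'.map Ed.w).Perm (c.map Ed.w) := by
  induction h with
  | swap e₂ e₁ c => exact List.Perm.swap _ _ _
  | flip e =>
    have h1 : (⟨e.i, e.b, -e.κ, e.s * e.t / e.z⟩ : Ed ι K).w = e.w := by
      unfold Ed.w Ed.s Ed.t
      simp only
      rw [sub_neg_eq_add, ← sub_eq_add_neg, mul_comm ((e.b - e.κ) / 2)]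
    rw [List.map_cons, List.map_cons, h1]
  | cons e _ ih => exact ih.cons _

lemma adj_ge {c c' : List (Ed ι K)} (h : Adj c c') (hc : ∀ e ∈ c, Ge v e) : ∀ e ∈ c', Ge v e := by
  induction h with
  | swap e₂ e₁ c =>
    have g2 := hc e₂ (by simp)
    have g1 := hc e₁ (by simp)
    obtain ⟨h1, h2⟩ := ge_swap g2 g1
    intro e he
    rcases List.mem_cons.mp he with rfl | he
    · exact h1
    · rcases List.mem_cons.mp he with rfl | he
      · exact h2
      · exact hc e (by simp [he])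
  | flip e =>
    intro e' he
    rw [List.mem_singleton] at he
    subst he
    exact ge_flip (hc e (by simp))
  | cons e _ ih =>
    intro e' he
    rcases List.mem_cons.mp he with rfl | he
    · exact hc _ (by simp)
    · exact ih (fun e'' h'' => hc e'' (List.mem_cons_of_mem _ h'')) e' he

/-- The leading term of the four-vector. -/
lemma lead {c : List (Ed ι K)} (h0 : c ≠ []) (hc : ∀ e ∈ c, Ge v e) {w : K} {w₀ : k}
    (hw : IsRes v w w₀) : ∃ M : K, M ≠ 0 ∧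
    (∃ x : k, x ≠ 0 ∧ IsRes v ((vec c).U.eval w / M) x) ∧
    (∃ x : k, x ≠ 0 ∧ IsRes v ((vec c).U'.eval w / M) x) ∧
    (∃ x : k, IsRes v ((vec c).Q.eval w / M) x) ∧ (∃ x : k, IsRes v ((vec c).R.eval w / M) x) := by
  have hchar : CX.Good K := CX.Good.ext k
  have four : IsRes v (4 : K) (4 : k) := isRes_ofNat 4
  have half : IsRes v (2⁻¹ : K) (2⁻¹ : k) := isRes_inv (isRes_ofNat 2) two_ne_zero
  induction c with
  | nil => exact absurd rfl h0
  | cons e c ih =>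
    have ge := hc e (by simp)
    have f := ge_fine ge
    obtain ⟨b, κ, hb, hκ, b0, κ0, s0, t0, hz⟩ := ge
    have rs : IsRes v e.s ((b + κ) / 2) := half_res (hb.add hκ)
    have rt : IsRes v e.t ((b - κ) / 2) := half_res (hb.sub hκ)
    obtain ⟨m, p, q, hm, hp, hq, hpq⟩ := ext_pair hz
    set S := (b + κ) / 2
    set T := (b - κ) / 2
    have fz := f.z
    have fzs := f.zs
    have fzt := f.zt
    have rzs : IsRes v ((e.z + e.s) / m) (p + S * q) := by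
      convert hp.add (rs.mul hq) using 1
      field_simp
    have rzt : IsRes v ((e.z + e.t) / m) (p + T * q) := by
      convert hp.add (rt.mul hq) using 1
      field_simp
    have nzs : p + S * q ≠ 0 := by
      rcases hpq with ⟨rfl, rfl⟩ | ⟨rfl, rfl⟩
      · simp
      · simpa using s0
    have nzt : p + T * q ≠ 0 := by
      rcases hpq with ⟨rfl, rfl⟩ | ⟨rfl, rfl⟩
      · simp
      · simpa using t0
    have r1 := unit_quot hm rzs rzt nzt
    have r2 := unit_quot hm rzt rzs nzs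
    by_cases hn : c = []
    · subst hn
      have h1 : vec ([] : List (Ed ι K)) = ⟨0, 0, 1, 0⟩ := rfl
      refine ⟨1, one_ne_zero, ⟨_, mul_ne_zero (div_ne_zero nzs nzt) t0, ?_⟩,
        ⟨_, mul_ne_zero (div_ne_zero nzt nzs) s0, ?_⟩, ⟨b, ?_⟩, ⟨0, ?_⟩⟩
      · convert r1.mul rt using 1
        change (act e (vec [])).U.eval w / 1 = _
        rw [act_U_eval, h1]
        simp
      · convert r2.mul rs using 1
        change (act e (vec [])).U'.eval w / 1 = _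
        rw [act_U'_eval, h1]
        simp
      · convert hb using 1
        change (act e (vec [])).Q.eval w / 1 = _
        rw [act_Q_eval, h1]
        simp
      · convert isRes_zero (v := v) using 1
        change (act e (vec [])).R.eval w / 1 = _
        rw [act_R_eval, h1]
        simp
    · obtain ⟨M, hM, ⟨u, u0, hu⟩, ⟨u', u0', hu'⟩, ⟨x, hx⟩, ⟨y, hy⟩⟩ := ih hn
        (fun e' he' => hc e' (List.mem_cons_of_mem _ he'))
      have hM' : M * m ^ 2 / e.z ≠ 0 := div_ne_zero (mul_ne_zero hM (pow_ne_zero 2 hm)) fz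
      have k1 : (p + S * q) / (p + T * q) * (p ^ 2 * u + T ^ 2 * q ^ 2 * u' +
          T * (p * q) * (x + (w₀ - 4) * y)) ≠ 0 := by
        refine mul_ne_zero (div_ne_zero nzs nzt) ?_
        rcases hpq with ⟨rfl, rfl⟩ | ⟨rfl, rfl⟩
        · simpa using u0
        · simpa using ⟨t0, u0'⟩
      have k2 : (p + T * q) / (p + S * q) * (p ^ 2 * u + S ^ 2 * q ^ 2 * u' +
          S * (p * q) * (x - (w₀ - 4) * y)) ≠ 0 := by
        refine mul_ne_zero (div_ne_zero nzt nzs) ?_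
        rcases hpq with ⟨rfl, rfl⟩ | ⟨rfl, rfl⟩
        · simpa using u0
        · simpa using ⟨s0, u0'⟩
      refine ⟨M * m ^ 2 / e.z, hM', ⟨_, k1, ?_⟩, ⟨_, k2, ?_⟩,
        ⟨b * (p * q) * x + 2⁻¹ * w₀ * (p ^ 2 * u + S * T * q ^ 2 * u'), ?_⟩,
        ⟨κ * (p * q) * y + 2⁻¹ * (p ^ 2 * u - S * T * q ^ 2 * u'), ?_⟩⟩
      · convert r1.mul ((((hp.pow 2).mul hu).add (((rt.pow 2).mul (hq.pow 2)).mul hu')).add
          ((rt.mul (hp.mul hq)).mul (hx.add ((hw.sub four).mul hy)))) using 1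
        change (act e (vec c)).U.eval w / _ = _
        rw [act_U_eval]
        field_simp
      · convert r2.mul ((((hp.pow 2).mul hu).add (((rs.pow 2).mul (hq.pow 2)).mul hu')).add
          ((rs.mul (hp.mul hq)).mul (hx.sub ((hw.sub four).mul hy)))) using 1
        change (act e (vec c)).U'.eval w / _ = _
        rw [act_U'_eval]
        field_simp
      · convert ((hb.mul (hp.mul hq)).mul hx).add ((half.mul hw).mul (((hp.pow 2).mul hu).add
          (((rs.mul rt).mul (hq.pow 2)).mul hu'))) using 1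
        change (act e (vec c)).Q.eval w / _ = _
        rw [act_Q_eval]
        field_simp
      · convert ((hκ.mul (hp.mul hq)).mul hy).add (half.mul (((hp.pow 2).mul hu).sub
          (((rs.mul rt).mul (hq.pow 2)).mul hu'))) using 1
        change (act e (vec c)).R.eval w / _ = _
        rw [act_R_eval]
        field_simp

lemma ge_fineC {c : List (Ed ι K)} (hc : ∀ e ∈ c, Ge v e) (hw : (c.map Ed.w).Nodup) : FineC c := by
  induction c with
  | nil => trivial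
  | cons e c ih =>
    rw [List.map_cons, List.nodup_cons] at hw
    have hc' : ∀ e' ∈ c, Ge v e' := fun e' he' => hc e' (List.mem_cons_of_mem _ he')
    have ge := hc e (by simp)
    refine ⟨ge_fine ge, ?_, ?_, ?_, ih hc' hw.2⟩
    · intro e' he' h
      exact hw.1 (List.mem_map.mpr ⟨e', he', h⟩)
    · intro e' he'
      exact ge_Nb ge (hc' e' (List.mem_of_mem_head? he'))
    · have h := hc e (by simp)
      obtain ⟨b, κ, hb, hκ, b0, κ0, s0, t0, hz⟩ := ge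
      have rw' : IsRes v e.w (b ^ 2 / ((b + κ) / 2 * ((b - κ) / 2))) :=
        isRes_div (hb.pow 2) ((half_res (hb.add hκ)).mul (half_res (hb.sub hκ)))
          (mul_ne_zero s0 t0)
      obtain ⟨M, hM, _, ⟨x, x0, hx⟩, _⟩ := lead (c := e :: c) (List.cons_ne_nil _ _) hc rw'
      intro h0
      change (vec (e :: c)).U'.eval e.w = 0 at h0
      rw [h0, zero_div] at hx
      exact x0 (hx.unique isRes_zero)

theorem ge_good {c : List (Ed ι K)} (hc : ∀ e ∈ c, Ge v e) (hw : (c.map Ed.w).Nodup) : GoodC c := by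
  have key : ∀ c', Relation.ReflTransGen Adj c c' → (∀ e ∈ c', Ge v e) ∧ (c'.map Ed.w).Nodup := by
    intro c' h
    induction h with
    | refl => exact ⟨hc, hw⟩
    | tail _ h ih => exact ⟨adj_ge h ih.1, (adj_w h).nodup_iff.mpr ih.2⟩
  intro c' h
  exact ge_fineC (key c' h).1 (key c' h).2

end inf

section fields

variable {k : Type u} [Field k] [IsAlgClosed k] [Good k] {K : Type u} [Field K] [Algebra k K]
  {ι ι' : Type*}

lemma fin_bad {S : Set (Place k K)} (hS : S.Finite) (t : K) :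
    {x₀ : k | ∃ v ∈ S, IsRes v t x₀}.Finite := by
  have h1 : {x₀ : k | ∃ v ∈ S, IsRes v t x₀} ⊆ ⋃ v ∈ S, {x₀ : k | IsRes v t x₀} := by
    rintro x ⟨v, hv, hx⟩
    exact Set.mem_biUnion hv hx
  refine (hS.biUnion fun v _ => ?_).subset h1
  refine Set.Subsingleton.finite ?_
  intro x hx y hy
  exact IsRes.unique (v := v) hx hy

lemma trans_sub {t : K} (ht : Transcendental k t) (a : k) :
    Transcendental k (t - algebraMap k K a) := by
  intro h6
  apply ht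
  have := h6.add (isAlgebraic_algebraMap (A := K) a)
  rwa [sub_add_cancel] at this

/-- Almost all values of a nonconstant function are values at places outside of a finite set. -/
lemma good_place (hK : IsFunctionField k K) {t : K} (ht : Transcendental k t)
    {S : Set (Place k K)} (hS : S.Finite) :
    ∃ B : Set k, B.Finite ∧ ∀ a, a ∉ B → ∃ v : Place k K, v ∉ S ∧ IsRes v t a := by
  refine ⟨_, fin_bad hS t, fun a ha => ?_⟩
  obtain ⟨v, hv⟩ := exists_place hK (trans_sub ht a)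
  exact ⟨v, fun h => ha ⟨v, h, hv⟩, hv⟩

/-- The constant chain. -/
def cst (K : Type u) [Field K] [Algebra k K] (c : List (Ed ι k)) : List (Ed ι K) :=
  c.map fun e => ⟨e.i, algebraMap k K e.b, algebraMap k K e.κ, algebraMap k K e.z⟩

lemma cst_res (c : List (Ed ι k)) (v : Place k K) : List.Forall₂ (Ed.Res v) (cst K c) c := by
  induction c with
  | nil => exact List.Forall₂.nil
  | cons e c ih => exact List.Forall₂.cons ⟨isRes_const _, isRes_const _, isRes_const _⟩ ih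

/-- The value of the family is the family of the values, at almost all places. -/
lemma spread_fam (hK : IsFunctionField k K) {c : List (Ed ι' K)} {x : K} (hf : FineC (fam c x)) :
    ∃ T : Set (Place k K), T.Finite ∧ ∀ v, v ∉ T → ∀ (c₀ : List (Ed ι k)) (x₀ : k),
      List.Forall₂ (Ed.Res v) c c₀ → IsRes v x x₀ →
        List.Forall₂ (Ed.Res v) (fam c x) (fam c₀ x₀) := by
  have hchar : CX.Good K := CX.Good.ext k
  induction c generalizing x with
  | nil =>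
    refine ⟨∅, Set.finite_empty, fun v _ c₀ x₀ h _ => ?_⟩
    cases h
    exact List.Forall₂.nil
  | cons e c ih =>
    have hz : e.z * dn e x ≠ 0 := hf.1.z
    have hd : e.z * ((e.z + e.s) - (e.z + e.t) * x) ≠ 0 :=
      mul_ne_zero (left_ne_zero_of_mul hz) (dn_den (right_ne_zero_of_mul hz))
    obtain ⟨T1, F1, h1⟩ := ih hf.2.2.2.2
    obtain ⟨T2, F2, h2⟩ := spread_one hK hd
    refine ⟨T1 ∪ T2, F1.union F2, fun v hv c₀ x₀ h hx => ?_⟩
    rw [Set.mem_union, not_or] at hv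
    cases h with
    | @cons _ e₀ _ c₁ r hr =>
      have rd := r.2.2.mul ((r.2.2.add (res_s r)).sub ((r.2.2.add (res_t r)).mul hx))
      have hd₀ := h2 v hv.2 _ rd
      have rdn : IsRes v (dn e x) (dn e₀ x₀) :=
        isRes_div ((((res_s r).mul (r.2.2.add (res_t r))).mul hx).sub
          ((res_t r).mul (r.2.2.add (res_s r)))) rd hd₀
      exact List.Forall₂.cons ⟨r.1, r.2.1, r.2.2.mul rdn⟩ (h1 v hv.1 c₁ _ hr rdn)

/-- The torus orbit of a good chain: almost all chains are good. -/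
theorem good_fam {c : List (Ed ι k)} (hc : GoodC c) :
    ∃ B : Set k, B.Finite ∧ ∀ x, x ∉ B → GoodC (fam c x) := by
  have hK : IsFunctionField k (RatFunc k) := ff_ratFunc
  have hX : Transcendental k (RatFunc.X : RatFunc k) := transcendental_ratX
  obtain ⟨v, hv⟩ := exists_place hK (trans_sub hX 1)
  have hv' : IsRes v (RatFunc.X : RatFunc k) 1 := hv
  have h1 : FineC (fam c 1) := by rw [fam_one (good_fine hc)]; exact good_fine hc
  have h2 := fam_res' (cst_res (K := RatFunc k) c v) hv' h1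
  rw [fam_one (good_fine hc)] at h2
  have hG : GoodC (fam (cst (RatFunc k) c) RatFunc.X) := good_of_res h2 hc
  obtain ⟨T1, F1, g1⟩ := spread_good (ι := ι) hK hG
  obtain ⟨T2, F2, g2⟩ := spread_fam (ι := ι) hK (hG _ Relation.ReflTransGen.refl)
  obtain ⟨B, hB, h3⟩ := good_place hK hX (F1.union F2)
  refine ⟨B, hB, fun x hx => ?_⟩
  obtain ⟨v, hv, hvx⟩ := h3 x hx
  rw [Set.mem_union, not_or] at hv
  exact g1 v hv.1 _ (g2 v hv.2 c x (cst_res c v) hvx)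

/-- The line of chains over a function field. -/
def lin (c : List (Ed ι k)) (x : K) : List (Ed ι K) :=
  c.map fun e => ⟨e.i, algebraMap k K e.b, algebraMap k K e.κ, algebraMap k K e.z + x⟩

lemma lin_res (c : List (Ed ι k)) {v : Place k K} {x : K} {τ : k} (h : IsRes v x τ) :
    List.Forall₂ (Ed.Res v) (lin c x) (c.map fun e => (⟨e.i, e.b, e.κ, e.z + τ⟩ : Ed ι k)) := by
  induction c with
  | nil => exact List.Forall₂.nil
  | cons e c ih =>
    exact List.Forall₂.cons ⟨isRes_const _, isRes_const _, (isRes_const _).add h⟩ ih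

lemma lin_w (c : List (Ed ι k)) (x : K) :
    (lin c x).map Ed.w = (c.map Ed.w).map (algebraMap k K) := by
  unfold lin
  rw [List.map_map, List.map_map]
  refine List.map_congr_left fun e _ => ?_
  simp only [Function.comp_apply]
  unfold Ed.w Ed.s Ed.t
  simp only [map_div₀, map_mul, map_pow, map_add, map_sub, map_ofNat]

lemma lin_ge {c : List (Ed ι k)} (hb : ∀ e ∈ c, e.b ≠ 0 ∧ e.κ ≠ 0 ∧ e.s ≠ 0 ∧ e.t ≠ 0)
    {v : Place k K} {x : K} (h0 : x ≠ 0) (h : IsRes v x⁻¹ 0) : ∀ e ∈ lin c x, Ge v e := by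
  intro e he
  obtain ⟨e₀, he₀, rfl⟩ := List.mem_map.mp he
  obtain ⟨b0, κ0, s0, t0⟩ := hb e₀ he₀
  refine ⟨e₀.b, e₀.κ, isRes_const _, isRes_const _, b0, κ0, s0, t0, ?_⟩
  change Ext v (algebraMap k K e₀.z + x)
  have h1 : IsRes v (algebraMap k K e₀.z * x⁻¹ + 1) 1 := by
    have h2 := ((isRes_const e₀.z).mul h).add isRes_one
    rwa [mul_zero, zero_add] at h2
  have h2 := ext_unit (z := x) ⟨h0, Or.inr h⟩ h1 one_ne_zero
  convert h2 using 1
  field_simp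

/-- A line of chains: almost all of them are good, and the total point is finite and different
from zero. -/
theorem good_line' (c : List (Ed ι k)) (hb : ∀ e ∈ c, e.b ≠ 0 ∧ e.κ ≠ 0 ∧ e.s ≠ 0 ∧ e.t ≠ 0)
    (hw : (c.map Ed.w).Nodup) :
    ∃ B : Set k, B.Finite ∧ ∀ τ, τ ∉ B →
      GoodC (c.map fun e => (⟨e.i, e.b, e.κ, e.z + τ⟩ : Ed ι k)) ∧
      (c ≠ [] → (vec (c.map fun e => (⟨e.i, e.b, e.κ, e.z + τ⟩ : Ed ι k))).z ≠ 0 ∧
        (vec (c.map fun e => (⟨e.i, e.b, e.κ, e.z + τ⟩ : Ed ι k))).z' ≠ 0) := by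
  have hK : IsFunctionField k (RatFunc k) := ff_ratFunc
  have hX : Transcendental k (RatFunc.X : RatFunc k) := transcendental_ratX
  have hX' : Transcendental k ((RatFunc.X : RatFunc k)⁻¹) := fun h => hX (by
    have := h.inv
    rwa [inv_inv] at this)
  obtain ⟨v, hv⟩ := exists_place hK hX'
  have hv' : IsRes v ((RatFunc.X : RatFunc k)⁻¹) 0 := isRes_zero_iff.mpr hv
  have hGe := lin_ge hb RatFunc.X_ne_zero hv'
  have hG : GoodC (lin c (RatFunc.X : RatFunc k)) := by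
    refine ge_good hGe ?_
    rw [lin_w]
    exact hw.map (algebraMap k (RatFunc k)).injective
  obtain ⟨T1, F1, g1⟩ := spread_good (ι := ι) hK hG
  obtain ⟨T2, F2, g2⟩ : ∃ T : Set (Place k (RatFunc k)), T.Finite ∧ ∀ v, v ∉ T → c ≠ [] →
      ∀ V₀ : V4 k, (vec (lin c (RatFunc.X : RatFunc k))).Res v V₀ → V₀.z ≠ 0 ∧ V₀.z' ≠ 0 := by
    by_cases hn : c = []
    · exact ⟨∅, Set.finite_empty, fun v _ h => absurd hn h⟩
    · have hn' : lin c (RatFunc.X : RatFunc k) ≠ [] := by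
        unfold lin
        rwa [ne_eq, List.map_eq_nil_iff]
      obtain ⟨M, hM, ⟨x, x0, hx⟩, ⟨y, y0, hy⟩, _⟩ := lead hn' hGe (isRes_ofNat (v := v) 4)
      have n1 : (vec (lin c (RatFunc.X : RatFunc k))).U.eval 4 ≠ 0 := by
        intro h
        rw [h, zero_div] at hx
        exact x0 (hx.unique isRes_zero)
      have n2 : (vec (lin c (RatFunc.X : RatFunc k))).U'.eval 4 ≠ 0 := by
        intro h
        rw [h, zero_div] at hy
        exact y0 (hy.unique isRes_zero)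
      obtain ⟨S1, G1, e1⟩ := spread_one hK n1
      obtain ⟨S2, G2, e2⟩ := spread_one hK n2
      refine ⟨S1 ∪ S2, G1.union G2, fun v hv _ V₀ hV => ?_⟩
      rw [Set.mem_union, not_or] at hv
      refine ⟨neg_ne_zero.mpr ?_, neg_ne_zero.mpr ?_⟩
      · exact e2 v hv.2 _ (PRes.eval hV.2.1 (isRes_ofNat 4))
      · exact e1 v hv.1 _ (PRes.eval hV.1 (isRes_ofNat 4))
  obtain ⟨B, hB, h3⟩ := good_place hK hX (F1.union F2)
  refine ⟨B, hB, fun τ hτ => ?_⟩
  obtain ⟨v, hv, hvx⟩ := h3 τ hτ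
  rw [Set.mem_union, not_or] at hv
  have hr := lin_res c hvx
  have hg := g1 v hv.1 _ hr
  exact ⟨hg, fun hn => g2 v hv.2 hn _ (vec_res' hr (good_fine hg))⟩

/-- A line of chains: almost all of them are good. -/
theorem good_line (c : List (Ed ι k)) (hb : ∀ e ∈ c, e.b ≠ 0 ∧ e.κ ≠ 0 ∧ e.s ≠ 0 ∧ e.t ≠ 0)
    (hw : (c.map Ed.w).Nodup) :
    ∃ B : Set k, B.Finite ∧ ∀ τ, τ ∉ B →
      GoodC (c.map fun e => (⟨e.i, e.b, e.κ, e.z + τ⟩ : Ed ι k)) := by
  obtain ⟨B, hB, h⟩ := good_line' c hb hw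
  exact ⟨B, hB, fun τ hτ => (h τ hτ).1⟩

end fields

end Pool.Agent.Helper15.VN

end CX
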